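import Mathlib
import Pool.Agent.Lib.Cx.Classes

/-!
Statement level definitions: spanning tree congestion, pathwidth, planarity, codes, and
nondeterministic machines with simultaneous time and space bounds.
-/

namespace Pool.Agent.Work.MP_1e0b64_lc

open Pool.Agent.Lib.Cx

/-- The congestion of the edge `e` of `T`: the number of edges of `G` whose ends are in different
components of `T - e`. -/
noncomputable def cng {V : Type} (G T : SimpleGraph V) (e : Sym2 V) : ℕ :=
  {f ∈ G.edgeSet | ∃ x y, f = s(x, y) ∧ ¬ (T.deleteEdges {e}).Reachable x y}.ncard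

/-- The spanning tree congestion. -/
noncomputable def stc {V : Type} (G : SimpleGraph V) : ℕ :=
  sInf {k | ∃ T : SimpleGraph V, T ≤ G ∧ T.IsTree ∧ ∀ e ∈ T.edgeSet, cng G T e ≤ k}

/-- `G` has a path decomposition of width at most `w`. -/
def PathwidthLE {V : Type} (G : SimpleGraph V) (w : ℕ) : Prop :=
  ∃ (m : ℕ) (bag : Fin m → Finset V), (∀ i, (bag i).card ≤ w + 1) ∧ (∀ v, ∃ i, v ∈ bag i) ∧
    (∀ u v, G.Adj u v → ∃ i, u ∈ bag i ∧ v ∈ bag i) ∧
    ∀ v i j l, i ≤ j → j ≤ l → v ∈ bag i → v ∈ bag l → v ∈ bag j

/-- Planarity: no `K5` minor and no `K3,3` minor. -/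
def IsPlanar {V : Type} (G : SimpleGraph V) : Prop :=
  (¬ ∃ f : Fin 5 → Set V, (∀ i j, i ≠ j → Disjoint (f i) (f j)) ∧
    (∀ i, (G.induce (f i)).Connected) ∧ ∀ i j, i ≠ j → ∃ u ∈ f i, ∃ v ∈ f j, G.Adj u v) ∧
  ¬ ∃ f : Bool × Fin 3 → Set V, (∀ i j, i ≠ j → Disjoint (f i) (f j)) ∧
    (∀ i, (G.induce (f i)).Connected) ∧
    ∀ a b : Fin 3, ∃ u ∈ f (false, a), ∃ v ∈ f (true, b), G.Adj u v

/-- The number `n` in unary, a zero, and then the string `x`. -/
def pre (n : ℕ) (x : List Bool) : List Bool := List.replicate n true ++ false :: x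

open Classical in
/-- The code of a graph and a bound: the bound, the number of vertices, the adjacency matrix. -/
noncomputable def encode {n : ℕ} (G : SimpleGraph (Fin n)) (K : ℕ) : List Bool :=
  pre K (pre n ((List.finRange n).flatMap fun i => (List.finRange n).map fun j =>
    decide (G.Adj i j)))

/-- A nondeterministic Turing machine with states `Fin a`, a two-way read-only input tape and a
binary work tape; `δ q i b q' m b' m'` says that in state `q`, reading `i` on the input tape and
`b` on the work tape, it may enter state `q'`, move the input head by `m`, write `b'` and move the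
work head by `m'`. -/
structure NTM where
  a : ℕ
  start : Fin a
  acc : Fin a → Bool
  δ : Fin a → Option Bool → Bool → Fin a → Move → Bool → Move → Bool

/-- Configurations: state, input head, work tape, work head. -/
structure NCfg (M : NTM) where
  q : Fin M.a
  pos : ℕ
  tape : ℕ → Bool
  head : ℕ

/-- One step on input `x`. -/
def NTM.Step (M : NTM) (x : List Bool) (c c' : NCfg M) : Prop :=
  ∃ m b m', M.δ c.q (inputSym x c.pos) (c.tape c.head) c'.q m b m' = true ∧
    c'.pos = min (m.apply c.pos) (x.length + 1) ∧ c'.tape = Function.update c.tape c.head b ∧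
    c'.head = m'.apply c.head

/-- Some run on input `x` reaches an accepting state within `t` steps and visits only the first
`s` cells of the work tape. -/
def NTM.Accepts (M : NTM) (x : List Bool) (s t : ℕ) : Prop :=
  ∃ (u : ℕ) (c : ℕ → NCfg M), u ≤ t ∧ c 0 = ⟨M.start, 0, fun _ => false, 0⟩ ∧
    (∀ i < u, M.Step x (c i) (c (i + 1))) ∧ M.acc (c u).q = true ∧ ∀ i ≤ u, (c i).head < s

end Pool.Agent.Work.MP_1e0b64_lc
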