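import Pool.Agent.Work.MP_1e0b64_lc.Defs
import Pool.Agent.Lib.TwoPage.MinorFree

-- merged part: Pool.Agent.Work.MP_1e0b64_lc.Tree
section
/-!
Spanning trees given by parent functions, and cuts.
-/

namespace Pool.Agent.Work.MP_1e0b64_lc

open SimpleGraph

variable {V : Type}

theorem inv_of_reach {T : SimpleGraph V} {β : Type} (σ : V → β)
    (h : ∀ x y, T.Adj x y → σ x = σ y) {x y : V} (r : T.Reachable x y) : σ x = σ y := by
  obtain ⟨p⟩ := r
  induction p with
  | nil => rfl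
  | cons ha _ ih => exact (h _ _ ha).trans ih

theorem sep {T : SimpleGraph V} (hT : T.IsTree) {β : Type} (χ : V → β) {c q : V}
    (h : χ c ≠ χ q) :
    ∃ y z, T.Adj y z ∧ χ y ≠ χ z ∧ ¬ (T.deleteEdges {s(y, z)}).Reachable c q := by
  classical
  obtain ⟨p, -, hu⟩ := hT.existsUnique_path c q
  have : ∃ y z, s(y, z) ∈ p.edges ∧ χ y ≠ χ z := by
    clear hu
    induction p with
    | nil => exact absurd rfl h
    | @cons a b _ ha p ih =>
      by_cases e : χ a = χ b
      · obtain ⟨y, z, h1, h2⟩ := ih (e ▸ h)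
        exact ⟨y, z, by simp [h1], h2⟩
      · exact ⟨a, b, by simp, e⟩
  obtain ⟨y, z, h1, h2⟩ := this
  refine ⟨y, z, p.adj_of_mem_edges h1, h2, fun r => ?_⟩
  obtain ⟨w, hw⟩ := reachable_deleteEdges_iff_exists_walk.1 r
  exact hw (w.edges_toPath_subset_edges (by rw [hu w.toPath w.toPath.2]; exact h1))

/-- The number of edges leaving the set `σ`. -/
noncomputable def cut (G : SimpleGraph V) (σ : V → Prop) : ℕ :=
  {f ∈ G.edgeSet | ∃ x y, f = s(x, y) ∧ σ x ∧ ¬ σ y}.ncard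

theorem cut_le_cng [Finite V] (G T : SimpleGraph V) (e : Sym2 V) (a : V) :
    cut G ((T.deleteEdges {e}).Reachable a) ≤ cng G T e :=
  Set.ncard_le_ncard (fun _ ⟨h, x, y, h1, h2, h3⟩ => ⟨h, x, y, h1, fun r => h3 (h2.trans r)⟩)

theorem cng_le_cut [Finite V] (G T : SimpleGraph V) (e : Sym2 V) (σ : V → Prop)
    (h : ∀ x y, (σ x ↔ σ y) → (T.deleteEdges {e}).Reachable x y) : cng G T e ≤ cut G σ := by
  refine Set.ncard_le_ncard fun _ ⟨h0, x, y, h1, h2⟩ => ⟨h0, ?_⟩
  by_cases hx : σ x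
  · exact ⟨x, y, h1, hx, fun hy => h2 (h x y (by simp [hx, hy]))⟩
  · exact ⟨y, x, h1.trans Sym2.eq_swap, by_contra fun hy => h2 (h x y (by simp [hx, hy])), hx⟩

theorem reach_of_ne {T : SimpleGraph V} {e : Sym2 V} {x y : V} (h : T.Adj x y)
    (hne : s(x, y) ≠ e) : (T.deleteEdges {e}).Reachable x y :=
  Adj.reachable (by simp [h, hne])

/-- The tree of a parent function. -/
def ptree (root : V) (par : V → V) : SimpleGraph V := fromRel fun u v => u ≠ root ∧ v = par u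

/-- `σ` is the set of descendants of `u`. -/
def Desc (root : V) (par : V → V) (u : V) (σ : V → Prop) : Prop :=
  σ u ∧ ¬ σ root ∧ ∀ v, v ≠ root → v ≠ u → (σ v ↔ σ (par v))

theorem exists_desc (root : V) (par : V → V) {u : V} (hu : u ≠ root) :
    ∃ σ, Desc root par u σ ∧ ∀ v, σ v → v = u ∨ ∃ w, w ≠ root ∧ u = par w := by
  refine ⟨fun v => Relation.ReflTransGen (fun a b => a ≠ root ∧ b = par a) v u,
    ⟨Relation.ReflTransGen.refl, fun h => ?_, fun v h1 h2 => ⟨fun h => ?_, fun h => ?_⟩⟩,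
    fun v h => ?_⟩
  · rcases h.cases_head with h | ⟨_, h, -⟩
    · exact hu h.symm
    · exact h.1 rfl
  · rcases h.cases_head with h | ⟨_, h, h'⟩
    · exact absurd h h2
    · exact h.2 ▸ h'
  · exact h.head ⟨h1, rfl⟩
  · rcases h.cases_tail with h | ⟨w, -, h⟩
    · exact Or.inl h.symm
    · exact Or.inr ⟨w, h⟩

section

variable {root : V} {par : V → V} {rk : V → ℕ} (hr : ∀ v, v ≠ root → rk (par v) < rk v)
include hr

theorem ptree_adj {v : V} (h : v ≠ root) : (ptree root par).Adj v (par v) :=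
  ⟨fun e => (hr v h).ne (by rw [← e]), Or.inl ⟨h, rfl⟩⟩

theorem Desc.not_par {u : V} {σ : V → Prop} (h : Desc root par u σ) (hu : u ≠ root) :
    ¬ σ (par u) := by
  have : ∀ n v, rk v = n → rk v < rk u → ¬ σ v := by
    intro n
    induction n using Nat.strong_induction_on with
    | _ n ih =>
      intro v e hv
      by_cases h0 : v = root
      · exact h0 ▸ h.2.1
      · rw [h.2.2 v h0 fun e => hv.ne (by rw [e])]
        exact ih _ (e ▸ hr v h0) _ rfl ((hr v h0).trans hv)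
  exact this _ _ rfl (hr u hu)

theorem Desc.reach {u : V} {σ : V → Prop} (h : Desc root par u σ) (hu : u ≠ root) (x y : V)
    (hxy : σ x ↔ σ y) : ((ptree root par).deleteEdges {s(u, par u)}).Reachable x y := by
  classical
  have : ∀ n v, rk v = n →
      ((ptree root par).deleteEdges {s(u, par u)}).Reachable v (if σ v then u else root) := by
    intro n
    induction n using Nat.strong_induction_on with
    | _ n ih =>
      intro v e
      by_cases h0 : v = root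
      · rw [h0, if_neg h.2.1]
      by_cases h1 : v = u
      · rw [h1, if_pos h.1]
      refine (reach_of_ne (ptree_adj hr h0) fun e' => ?_).trans ?_
      · rcases Sym2.eq_iff.1 e' with e' | e'
        · exact h1 e'.1
        · have := hr v h0
          have := hr u hu
          rw [← e'.1] at this
          rw [e'.2] at *
          omega
      · simpa only [h.2.2 v h0 h1] using ih _ (e ▸ hr v h0) _ rfl
  exact (this _ x rfl).trans (by simpa only [hxy] using (this _ y rfl).symm)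

theorem ptree_isTree : (ptree root par).IsTree := by
  have hc : ∀ n v, rk v = n → (ptree root par).Reachable v root := by
    intro n
    induction n using Nat.strong_induction_on with
    | _ n ih =>
      intro v e
      by_cases h0 : v = root
      · rw [h0]
      · exact (ptree_adj hr h0).reachable.trans (ih _ (e ▸ hr v h0) _ rfl)
  have hb : ∀ u, u ≠ root → (ptree root par).IsBridge s(u, par u) := by
    intro u hu r
    obtain ⟨σ, h, -⟩ := exists_desc root par hu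
    refine h.not_par hr hu (inv_of_reach σ (fun x y hxy => ?_) r ▸ h.1)
    rw [deleteEdges_adj] at hxy
    rcases hxy with ⟨⟨-, ⟨h1, rfl⟩ | ⟨h1, rfl⟩⟩, h2⟩
    · exact propext (h.2.2 x h1 fun e => h2 (by simp [e]))
    · exact propext (h.2.2 y h1 fun e => h2 (by simp [e])).symm
  have : Nonempty V := ⟨root⟩
  refine ⟨⟨fun x y => (hc _ x rfl).trans (hc _ y rfl).symm⟩,
    isAcyclic_iff_forall_adj_isBridge.2 ?_⟩
  rintro x y ⟨-, ⟨h1, rfl⟩ | ⟨h1, rfl⟩⟩
  · exact hb x h1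
  · exact Sym2.eq_swap ▸ hb y h1

theorem ptree_cng [Finite V] (G : SimpleGraph V) {K : ℕ}
    (h : ∀ u, u ≠ root → ∃ σ, Desc root par u σ ∧ cut G σ ≤ K) :
    ∀ e ∈ (ptree root par).edgeSet, cng G (ptree root par) e ≤ K := by
  have : ∀ u, u ≠ root → cng G (ptree root par) s(u, par u) ≤ K := fun u hu => by
    obtain ⟨σ, h1, h2⟩ := h u hu
    exact (cng_le_cut _ _ _ σ (h1.reach hr hu)).trans h2
  intro e he
  induction e with
  | h x y =>
    rcases (mem_edgeSet _).1 he with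
      ⟨-, ⟨h1, rfl⟩ | ⟨h1, rfl⟩⟩
    · exact this x h1
    · exact Sym2.eq_swap ▸ this y h1

end

theorem stc_le_iff {G : SimpleGraph V} (hG : G.Connected) [Finite V] (K : ℕ) :
    stc G ≤ K ↔ ∃ T : SimpleGraph V, T ≤ G ∧ T.IsTree ∧ ∀ e ∈ T.edgeSet, cng G T e ≤ K := by
  refine ⟨fun h => ?_, fun h => Nat.sInf_le h⟩
  obtain ⟨T, h1, h2⟩ := hG.exists_isTree_le
  obtain ⟨T, h1, h2, h3⟩ := Nat.sInf_mem (s := {k | ∃ T : SimpleGraph V, T ≤ G ∧ T.IsTree ∧
    ∀ e ∈ T.edgeSet, cng G T e ≤ k}) ⟨G.edgeSet.ncard, T, h1, h2, fun e _ =>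
      Set.ncard_le_ncard fun _ h => h.1⟩
  exact ⟨T, h1, h2, fun e he => (h3 e he).trans h⟩

end Pool.Agent.Work.MP_1e0b64_lc
end

-- merged part: Pool.Agent.Work.MP_1e0b64_lc.Bundle
section
/-!
Graphs in which weighted edges are realised by bundles of paths of length two.
-/

namespace Pool.Agent.Work.MP_1e0b64_lc

open SimpleGraph

/-- Every edge of `G` joins a middle vertex to its lower end or, if it is active, to its upper
end. -/
structure Bun {V : Type} (G : SimpleGraph V) where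
  mid : V → Prop
  act : V → Prop
  lo : V → V
  up : V → V
  root : V
  rk : V → ℕ
  adj : ∀ u v, G.Adj u v ↔ (mid u ∧ (v = lo u ∨ act u ∧ v = up u)) ∨
    (mid v ∧ (u = lo v ∨ act v ∧ u = up v))
  nlo : ∀ m, ¬ mid (lo m)
  nup : ∀ m, ¬ mid (up m)
  nroot : ¬ mid root
  lroot : ∀ m, mid m → lo m ≠ root
  rlt : ∀ m, mid m → act m → rk (up m) < rk (lo m)

namespace Bun

variable {V : Type} {G : SimpleGraph V} (B : Bun G)

/-- The weight of the cut `σ`. -/
noncomputable def wc (σ : V → Prop) : ℕ :=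
  {m | B.mid m ∧ B.act m ∧ ¬ (σ (B.lo m) ↔ σ (B.up m))}.ncard

/-- Every node other than the root chooses an active middle vertex above it. -/
def Ch (ch : V → V) : Prop :=
  ∀ z, ¬ B.mid z → z ≠ B.root → B.mid (ch z) ∧ B.act (ch z) ∧ B.lo (ch z) = z

/-- On nodes, `σ` is the set of descendants of `c`. -/
def IsD (ch : V → V) (c : V) (σ : V → Prop) : Prop :=
  σ c ∧ ¬ σ B.root ∧ ∀ z, ¬ B.mid z → z ≠ B.root → z ≠ c → (σ z ↔ σ (B.up (ch z)))

/-- Both edges at the middle vertex `m` are in `T`. -/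
def Used (T : SimpleGraph V) (m : V) : Prop :=
  B.mid m ∧ B.act m ∧ T.Adj m (B.lo m) ∧ T.Adj m (B.up m)

theorem wc_congr {σ τ : V → Prop} (h : ∀ z, ¬ B.mid z → (σ z ↔ τ z)) : B.wc σ = B.wc τ := by
  simp only [wc, h _ (B.nlo _), h _ (B.nup _)]

theorem IsD.uniq {B : Bun G} {ch : V → V} (hc : B.Ch ch) {c : V} {σ τ : V → Prop}
    (h1 : B.IsD ch c σ) (h2 : B.IsD ch c τ) (z : V) (hz : ¬ B.mid z) : σ z ↔ τ z := by
  induction hn : B.rk z using Nat.strong_induction_on generalizing z with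
  | _ n ih =>
    by_cases h0 : z = B.root
    · simp [h0, h1.2.1, h2.2.1]
    by_cases h3 : z = c
    · simp [h3, h1.1, h2.1]
    obtain ⟨a1, a2, a3⟩ := hc z hz h0
    rw [h1.2.2 z hz h0 h3, h2.2.2 z hz h0 h3]
    exact ih _ (by rw [← hn]; simpa only [a3] using B.rlt _ a1 a2) _ (B.nup _) rfl

theorem adj_lo {m : V} (h : B.mid m) : G.Adj m (B.lo m) := (B.adj _ _).2 (Or.inl ⟨h, Or.inl rfl⟩)

theorem adj_up {m : V} (h : B.mid m) (h' : B.act m) : G.Adj m (B.up m) :=
  (B.adj _ _).2 (Or.inl ⟨h, Or.inr ⟨h', rfl⟩⟩)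

theorem edge_inj {m m' a a' : V} (h : B.mid m) (ha' : ¬ B.mid a') (e : s(m, a) = s(m', a')) :
    m = m' ∧ a = a' := by
  rcases Sym2.eq_iff.1 e with e | e
  · exact e
  · exact absurd (e.1 ▸ h) ha'

theorem connected {ch : V → V} (hc : B.Ch ch) : G.Connected := by
  have h1 : ∀ n z, B.rk z = n → ¬ B.mid z → G.Reachable z B.root := by
    intro n
    induction n using Nat.strong_induction_on with
    | _ n ih =>
      intro z e z1
      by_cases z2 : z = B.root
      · rw [z2]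
      · obtain ⟨a1, a2, a3⟩ := hc z z1 z2
        have := B.rlt _ a1 a2
        have h := (B.adj_lo a1).symm.reachable
        rw [a3] at this h
        exact h.trans ((B.adj_up a1 a2).reachable.trans (ih _ (e ▸ this) _ rfl (B.nup _)))
  have h2 : ∀ z, G.Reachable z B.root := fun z => by
    by_cases z1 : B.mid z
    · exact (B.adj_lo z1).reachable.trans (h1 _ _ rfl (B.nlo z))
    · exact h1 _ _ rfl z1
  have : Nonempty V := ⟨B.root⟩
  exact ⟨fun x y => (h2 x).trans (h2 y).symm⟩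

variable [Finite V]

theorem wc_le_cut (σ : V → Prop) : B.wc σ ≤ cut G σ := by
  classical
  refine Set.ncard_le_ncard_of_injOn
    (fun m => s(m, if (σ m ↔ σ (B.lo m)) then B.up m else B.lo m)) ?_ ?_
  · rintro m ⟨h1, h2, h3⟩
    refine ⟨by split_ifs; exacts [B.adj_up h1 h2, B.adj_lo h1], ?_⟩
    by_cases hm : σ m
    · exact ⟨m, _, rfl, hm, by split_ifs <;> tauto⟩
    · exact ⟨_, m, Sym2.eq_swap, by split_ifs <;> tauto, hm⟩
  · rintro m ⟨h1, -⟩ m' - e
    exact (B.edge_inj h1 (by split_ifs; exacts [B.nup _, B.nlo _]) e).1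

theorem cut_le_wc (σ : V → Prop)
    (h : ∀ m, B.mid m → (σ m ↔ σ (B.lo m)) ∨ (B.act m ∧ (σ m ↔ σ (B.up m)))) :
    cut G σ ≤ B.wc σ := by
  classical
  refine le_trans (Set.ncard_le_ncard ?_) (Set.ncard_image_le
    (f := fun m => s(m, if (σ m ↔ σ (B.lo m)) then B.up m else B.lo m)))
  have key : ∀ m v, B.mid m → (v = B.lo m ∨ B.act m ∧ v = B.up m) → ¬ (σ m ↔ σ v) →
      (B.mid m ∧ B.act m ∧ ¬ (σ (B.lo m) ↔ σ (B.up m))) ∧
        (if (σ m ↔ σ (B.lo m)) then B.up m else B.lo m) = v := by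
    rintro m v h1 (rfl | ⟨h2, rfl⟩) h3
    · rcases h m h1 with h4 | h4
      · exact absurd h4 h3
      · exact ⟨⟨h1, h4.1, by tauto⟩, if_neg h3⟩
    · rcases h m h1 with h4 | h4
      · exact ⟨⟨h1, h2, by tauto⟩, if_pos h4⟩
      · exact absurd h4.2 h3
  rintro _ ⟨h0, x, y, rfl, hx, hy⟩
  rcases (B.adj x y).1 h0 with ⟨h1, h2⟩ | ⟨h1, h2⟩
  · obtain ⟨a, b⟩ := key x y h1 h2 (by tauto)
    exact ⟨x, a, by simp only [b]⟩
  · obtain ⟨a, b⟩ := key y x h1 h2 (by tauto)
    exact ⟨y, a, by simp only [b, Sym2.eq_swap]⟩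

theorem complete {ch : V → V} (hc : B.Ch ch) {K : ℕ} (hK : 2 ≤ K)
    (h : ∀ c, ¬ B.mid c → c ≠ B.root → ∃ σ, B.IsD ch c σ ∧ B.wc σ ≤ K) :
    ∃ T : SimpleGraph V, T ≤ G ∧ T.IsTree ∧ ∀ e ∈ T.edgeSet, cng G T e ≤ K := by
  classical
  let par : V → V := fun v =>
    if B.mid v then (if v = ch (B.lo v) then B.up v else B.lo v) else ch v
  let rk : V → ℕ := fun v =>
    if B.mid v then (if v = ch (B.lo v) then 2 * B.rk (B.lo v) - 1 else 2 * B.rk (B.lo v) + 1)
    else 2 * B.rk v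
  have hact : ∀ m, B.mid m → m = ch (B.lo m) → B.act m := fun m h1 h2 =>
    h2 ▸ (hc _ (B.nlo m) (B.lroot m h1)).2.1
  have p1 : ∀ z, ¬ B.mid z → par z = ch z := fun z hz => if_neg hz
  have p2 : ∀ m, B.mid m → m = ch (B.lo m) → par m = B.up m := fun m h1 h2 => by
    simp only [par, if_pos h1, if_pos h2]
  have p3 : ∀ m, B.mid m → m ≠ ch (B.lo m) → par m = B.lo m := fun m h1 h2 => by
    simp only [par, if_pos h1, if_neg h2]
  have hr : ∀ v, v ≠ B.root → rk (par v) < rk v := by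
    intro v hv
    by_cases h1 : B.mid v
    · by_cases h2 : v = ch (B.lo v)
      · have := B.rlt v h1 (hact v h1 h2)
        simp only [p2 v h1 h2, rk, if_neg (B.nup v), if_pos h1, if_pos h2]
        omega
      · simp only [p3 v h1 h2, rk, if_neg (B.nlo v), if_pos h1, if_neg h2]
        omega
    · obtain ⟨a1, a2, a3⟩ := hc v h1 hv
      have := B.rlt _ a1 a2
      simp only [p1 v h1, rk, if_neg h1, if_pos a1, a3, if_true] at this ⊢
      omega
  refine ⟨ptree B.root par, ?_, ptree_isTree hr, ptree_cng hr G fun u hu => ?_⟩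
  · have : ∀ v, v ≠ B.root → G.Adj v (par v) := by
      intro v hv
      by_cases h1 : B.mid v
      · by_cases h2 : v = ch (B.lo v)
        · exact p2 v h1 h2 ▸ B.adj_up h1 (hact v h1 h2)
        · exact p3 v h1 h2 ▸ B.adj_lo h1
      · obtain ⟨a1, a2, a3⟩ := hc v h1 hv
        simpa only [p1 v h1, a3] using (B.adj_lo a1).symm
    rintro x y ⟨-, ⟨h1, rfl⟩ | ⟨h1, rfl⟩⟩
    exacts [this x h1, (this y h1).symm]
  obtain ⟨σ, hσ, hl⟩ := exists_desc B.root par hu
  refine ⟨σ, hσ, ?_⟩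
  have hmr : ∀ m, B.mid m → m ≠ B.root := fun m h1 e => B.nroot (e ▸ h1)
  by_cases h1 : B.mid u ∧ u ≠ ch (B.lo u)
  · have h2 : ∀ v, σ v → v = u := fun v hv => (hl v hv).resolve_right <| by
      rintro ⟨w, hw, e⟩
      by_cases h3 : B.mid w
      · by_cases h4 : w = ch (B.lo w)
        · exact B.nup w (p2 w h3 h4 ▸ e ▸ h1.1)
        · exact B.nlo w (p3 w h3 h4 ▸ e ▸ h1.1)
      · rw [p1 w h3] at e
        exact h1.2 (by rw [e, (hc w h3 hw).2.2])
    refine le_trans (le_trans (Set.ncard_le_ncard (t := {s(u, B.lo u), s(u, B.up u)}) ?_)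
      (Set.ncard_insert_le _ _)) (by simpa using hK)
    rintro _ ⟨h0, x, y, rfl, hx, -⟩
    obtain rfl := h2 x hx
    rcases (B.adj x y).1 h0 with ⟨-, rfl | ⟨-, rfl⟩⟩ | ⟨-, e | ⟨-, e⟩⟩
    · simp
    · simp
    · exact absurd (e ▸ h1.1) (B.nlo y)
    · exact absurd (e ▸ h1.1) (B.nup y)
  obtain ⟨c, c1, c2, c3⟩ : ∃ c, ¬ B.mid c ∧ c ≠ B.root ∧ (u = c ∨ u = ch c) := by
    by_cases h2 : B.mid u
    · exact ⟨B.lo u, B.nlo u, B.lroot u h2, Or.inr (not_not.1 fun e => h1 ⟨h2, e⟩)⟩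
    · exact ⟨u, h2, hu, Or.inl rfl⟩
  obtain ⟨a1, a2, a3⟩ := hc c c1 c2
  have hσc : σ c := by
    rcases c3 with e | e
    · exact e ▸ hσ.1
    · rw [hσ.2.2 c c2 fun e' => c1 (e' ▸ e ▸ a1), p1 c c1, ← e]
      exact hσ.1
  have hD : B.IsD ch c σ := by
    refine ⟨hσc, hσ.2.1, fun z z1 z2 z3 => ?_⟩
    obtain ⟨b1, b2, b3⟩ := hc z z1 z2
    rw [hσ.2.2 z z2, p1 z z1, hσ.2.2 _ (hmr _ b1), p2 _ b1 (by rw [b3])]
    · rcases c3 with e | e
      · exact fun e' => c1 (e ▸ e' ▸ b1)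
      · exact fun e' => z3 (by rw [← b3, e', e, a3])
    · rcases c3 with e | e
      · exact e ▸ z3
      · exact fun e' => z1 (e' ▸ e ▸ a1)
  obtain ⟨τ, t1, t2⟩ := h c c1 c2
  refine (B.cut_le_wc σ fun m m1 => ?_).trans ((B.wc_congr (hD.uniq hc t1)).trans_le t2)
  by_cases m2 : m = u
  · left
    rcases c3 with e | e
    · exact absurd (e ▸ m2 ▸ m1) c1
    · rw [m2, iff_true_left hσ.1, e, a3]
      exact hσc
  · by_cases m3 : m = ch (B.lo m)
    · exact Or.inr ⟨hact m m1 m3, p2 m m1 m3 ▸ hσ.2.2 m (hmr m m1) m2⟩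
    · exact Or.inl (p3 m m1 m3 ▸ hσ.2.2 m (hmr m m1) m2)

variable {T : SimpleGraph V} (hTG : T ≤ G) (hT : T.IsTree) {K : ℕ}
  (hK : ∀ e ∈ T.edgeSet, cng G T e ≤ K)

include hT hK in
theorem sound {ch : V → V} (hc : ∀ z, ¬ B.mid z → z ≠ B.root → B.Used T (ch z) ∧ B.lo (ch z) = z)
    {c : V} (c1 : ¬ B.mid c) (c2 : c ≠ B.root) {σ : V → Prop} (hσ : B.IsD ch c σ) :
    B.wc σ ≤ K := by
  have hC : B.Ch ch := fun z h1 h2 => ⟨(hc z h1 h2).1.1, (hc z h1 h2).1.2.1, (hc z h1 h2).2⟩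
  obtain ⟨⟨a1, a2, a3, a4⟩, a5⟩ := hc c c1 c2
  rw [a5] at a3
  let τ := (T.deleteEdges {s(ch c, c)}).Reachable c
  have h1 : ∀ z, ¬ B.mid z → z ≠ B.root → z ≠ c → (τ z ↔ τ (B.up (ch z))) := by
    intro z z1 z2 z3
    obtain ⟨⟨b1, -, b3, b4⟩, b5⟩ := hc z z1 z2
    rw [b5] at b3
    have n1 : ch z ≠ ch c := fun e => z3 (by rw [← b5, e, a5])
    have r := (reach_of_ne b3 fun e => n1 (B.edge_inj b1 c1 e).1).symm.trans
      (reach_of_ne b4 fun e => n1 (B.edge_inj b1 c1 e).1)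
    exact ⟨fun h => h.trans r, fun h => h.trans r.symm⟩
  have hlt := B.rlt _ a1 a2
  rw [a5] at hlt
  have h2 : ¬ τ B.root := by
    intro h0
    have : ∀ n z, B.rk z = n → ¬ B.mid z → B.rk z < B.rk c → τ z := by
      intro n
      induction n using Nat.strong_induction_on with
      | _ n ih =>
        intro z e z1 z3
        by_cases z2 : z = B.root
        · exact z2 ▸ h0
        · have := B.rlt _ (hC z z1 z2).1 (hC z z1 z2).2.1
          rw [(hC z z1 z2).2.2] at this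
          exact (h1 z z1 z2 fun e => z3.ne (by rw [e])).2
            (ih _ (e ▸ this) _ rfl (B.nup _) (this.trans z3))
    exact isAcyclic_iff_forall_adj_isBridge.1 hT.isAcyclic a3
      ((reach_of_ne a4 fun e => hlt.ne (by rw [(B.edge_inj a1 c1 e).2])).trans
        (this _ _ rfl (B.nup _) hlt).symm)
  have hD : B.IsD ch c τ := ⟨Reachable.refl c, h2, h1⟩
  rw [B.wc_congr (hσ.uniq hC hD)]
  exact (B.wc_le_cut τ).trans ((cut_le_cng G T _ c).trans (hK _ a3))

open Classical in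
omit [Finite V] in
include hTG in
theorem ext_ne {β : Type} (χ : V → β) {y z : V} (h : T.Adj y z)
    (hne : (fun v => if B.mid v then (if T.Adj v (B.lo v) then χ (B.lo v) else χ (B.up v))
      else χ v) y ≠ (fun v => if B.mid v then (if T.Adj v (B.lo v) then χ (B.lo v)
        else χ (B.up v)) else χ v) z) :
    ∃ m, B.Used T m ∧ χ (B.lo m) ≠ χ (B.up m) ∧ s(y, z) = s(m, B.up m) := by
  have key : ∀ m v, T.Adj m v → B.mid m → (v = B.lo m ∨ B.act m ∧ v = B.up m) →
      (if T.Adj m (B.lo m) then χ (B.lo m) else χ (B.up m)) ≠ χ v →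
      B.Used T m ∧ χ (B.lo m) ≠ χ (B.up m) ∧ v = B.up m := by
    rintro m v h0 h1 (rfl | ⟨h2, rfl⟩) h3
    · exact absurd (if_pos h0) h3
    · split_ifs at h3 with h4
      · exact ⟨⟨h1, h2, h4, h0⟩, h3, rfl⟩
      · exact absurd rfl h3
  have nm : ∀ m v, (v = B.lo m ∨ B.act m ∧ v = B.up m) → ¬ B.mid v := by
    rintro m v (rfl | ⟨-, rfl⟩)
    exacts [B.nlo m, B.nup m]
  rcases (B.adj y z).1 (hTG h) with ⟨h1, h2⟩ | ⟨h1, h2⟩
  · simp only [if_pos h1, if_neg (nm _ _ h2)] at hne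
    obtain ⟨a, b, c⟩ := key y z h h1 h2 hne
    exact ⟨y, a, b, by rw [← c]⟩
  · simp only [if_pos h1, if_neg (nm _ _ h2)] at hne
    obtain ⟨a, b, c⟩ := key z y h.symm h1 h2 hne.symm
    exact ⟨z, a, b, by rw [← c, Sym2.eq_swap]⟩

include hTG hT hK in
theorem used {β : Type} (χ : V → β) {c q : V} (c1 : ¬ B.mid c) (q1 : ¬ B.mid q) (h : χ c ≠ χ q) :
    ∃ m σ, B.Used T m ∧ χ (B.lo m) ≠ χ (B.up m) ∧ ¬ (σ c ↔ σ q) ∧
      ¬ (σ (B.lo m) ↔ σ (B.up m)) ∧ B.wc σ ≤ K := by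
  classical
  obtain ⟨y, z, h1, h2, h3⟩ := sep hT (fun v => if B.mid v then
    (if T.Adj v (B.lo v) then χ (B.lo v) else χ (B.up v)) else χ v) (c := c) (q := q)
    (by simpa only [if_neg c1, if_neg q1] using h)
  obtain ⟨m, m1, m2, m3⟩ := B.ext_ne hTG χ h1 h2
  rw [m3] at h3
  have hb : ¬ (T.deleteEdges {s(m, B.up m)}).Reachable m (B.up m) :=
    isAcyclic_iff_forall_adj_isBridge.1 hT.isAcyclic m1.2.2.2
  have r : (T.deleteEdges {s(m, B.up m)}).Reachable m (B.lo m) := reach_of_ne m1.2.2.1 fun e =>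
    m2 (by rw [(B.edge_inj m1.1 (B.nup m) e).2])
  have hall : ∀ v, (T.deleteEdges {s(m, B.up m)}).Reachable m v ∨
      (T.deleteEdges {s(m, B.up m)}).Reachable (B.up m) v := by
    intro v
    refine inv_of_reach (fun v => (T.deleteEdges {s(m, B.up m)}).Reachable m v ∨
      (T.deleteEdges {s(m, B.up m)}).Reachable (B.up m) v) (fun a b hab => ?_)
      (hT.connected m v) ▸ Or.inl (Reachable.refl m)
    by_cases e : s(a, b) = s(m, B.up m)
    · rcases Sym2.eq_iff.1 e with ⟨rfl, rfl⟩ | ⟨rfl, rfl⟩ <;> simp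
    · have := reach_of_ne hab e
      exact propext ⟨fun h => h.imp (·.trans this) (·.trans this),
        fun h => h.imp (·.trans this.symm) (·.trans this.symm)⟩
  refine ⟨m, (T.deleteEdges {s(m, B.up m)}).Reachable m, m1, m2, fun e => h3 ?_,
    fun e => hb (e.1 r), (B.wc_le_cut _).trans ((cut_le_cng G T _ m).trans (hK _ m1.2.2.2))⟩
  by_cases hc : (T.deleteEdges {s(m, B.up m)}).Reachable m c
  · exact hc.symm.trans (e.1 hc)
  · exact ((hall c).resolve_left hc).symm.trans ((hall q).resolve_left fun h => hc (e.2 h))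

end Bun

end Pool.Agent.Work.MP_1e0b64_lc
end

-- merged part: Pool.Agent.Work.MP_1e0b64_lc.Plan
section
/-!
Level planar graphs are planar.
-/

namespace Pool.Agent.Work.MP_1e0b64_lc

open Pool.Agent.Lib.TwoPage

theorem planar_of_level {V : Type} [Fintype V] [DecidableEq V] (G : SimpleGraph V)
    (lev pos : V → ℕ) (hp : Function.Injective pos)
    (h1 : ∀ u v, G.Adj u v → lev v = lev u + 1 ∨ lev u = lev v + 1)
    (h2 : ∀ a b c d, G.Adj a b → G.Adj c d → lev b = lev a + 1 → lev c = lev a →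
      lev d = lev b → pos a < pos c → pos b ≤ pos d) : IsPlanar G := by
  let lt : V → V → ZMod 2 := fun u v => if lev u < lev v ∨ lev u = lev v ∧
    (lev u % 2 = 0 ∧ pos u < pos v ∨ lev u % 2 = 1 ∧ pos v < pos u) then 1 else 0
  have anti : ∀ a b, a ≠ b → lt a b + lt b a = 1 := by
    intro a b h
    have : pos a ≠ pos b := fun e => h (hp e)
    simp only [lt]
    split_ifs <;> first | rfl | omega
  have key : ∀ x y z w, G.Adj x y → G.Adj z w → x ≠ z → y ≠ w → lev y = lev x + 1 →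
      lev w = lev z + 1 → lev x % 2 = lev z % 2 → lt x z + lt y z + lt x w + lt y w = 0 := by
    intro x y z w a1 a2 n1 n2 l1 l2 l3
    have p1 : pos x ≠ pos z := fun e => n1 (hp e)
    have p2 : pos y ≠ pos w := fun e => n2 (hp e)
    have q1 := h2 x y z w a1 a2 l1
    have q2 := h2 z w x y a2 a1 l2
    simp only [lt]
    rcases (by omega : lev x + 2 ≤ lev z ∨ lev z + 2 ≤ lev x ∨ lev x = lev z) with e | e | e
    · clear q1 q2 p1 p2
      rw [if_pos (Or.inl (by omega)), if_pos (Or.inl (by omega)), if_pos (Or.inl (by omega)),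
        if_pos (Or.inl (by omega))]
      rfl
    · clear q1 q2 p1 p2
      rw [if_neg (by omega), if_neg (by omega), if_neg (by omega), if_neg (by omega)]
      rfl
    · replace q1 := q1 e.symm (by omega)
      replace q2 := q2 e (by omega)
      rw [if_neg (show ¬ (lev y < lev z ∨ _) by omega), if_pos (Or.inl (show lev x < lev w by omega))]
      split_ifs <;> first | rfl | omega
  have hN : NoCross G (fun u v => decide (min (lev u) (lev v) % 2 = 0)) lt := by
    intro x y z w a1 a2 n1 n2 n3 n4 hpg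
    simp only [decide_eq_decide] at hpg
    rcases h1 x y a1 with l1 | l1 <;> rcases h1 z w a2 with l2 | l2
    · exact key x y z w a1 a2 n1 n4 l1 l2 (by omega)
    · rw [← key x y w z a1 a2.symm n2 n3 l1 l2 (by omega)]
      ring
    · rw [← key y x z w a1.symm a2 n3 n2 l1 l2 (by omega)]
      ring
    · rw [← key y x w z a1.symm a2.symm n4 n1 l1 l2 (by omega)]
      ring
  exact ⟨no_K5_minor anti hN, no_K33_minor anti hN⟩

end Pool.Agent.Work.MP_1e0b64_lc
end

-- merged part: Pool.Agent.Work.MP_1e0b64_lc.Grid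
section
/-!
The grid graph with weights `W`: the vertex `q * (6 K)` is the node `q`, the vertices
`q * (6 K) + d * K + t` are middle vertices, active if `t < W q d`.
-/

namespace Pool.Agent.Work.MP_1e0b64_lc

open SimpleGraph Finset

/-- The upper end of the macro edge in direction `d` at the node `q`. -/
def upq (P Q q d : ℕ) : ℕ := min (q + P + d - 3) Q

/-- `z` is a middle vertex and `z'` one of its neighbours. -/
def rel (P Q K : ℕ) (W : ℕ → ℕ → ℕ) (z z' : ℕ) : Prop :=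
  z % (6 * K) ≠ 0 ∧ (z' = z / (6 * K) * (6 * K) ∨
    z % K < W (z / (6 * K)) (z % (6 * K) / K) ∧
      z' = upq P Q (z / (6 * K)) (z % (6 * K) / K) * (6 * K))

/-- The grid graph. -/
def Gr (P Q K : ℕ) (W : ℕ → ℕ → ℕ) : SimpleGraph (Fin (Q * (6 * K) + 1)) where
  Adj u v := rel P Q K W u v ∨ rel P Q K W v u
  symm := ⟨fun _ _ h => h.symm⟩
  loopless := ⟨fun u h => by
    rcases or_self_iff.1 h with ⟨h1, h2 | ⟨-, h2⟩⟩ <;> exact h1 (h2 ▸ Nat.mul_mod_left _ _)⟩

/-- The vertex with number `n`. -/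
def vx (Q K n : ℕ) : Fin (Q * (6 * K) + 1) := ⟨min n (Q * (6 * K)), by omega⟩

open Classical in
/-- The weight of a cut of the nodes. -/
noncomputable def wq (P Q : ℕ) (W : ℕ → ℕ → ℕ) (s : ℕ → Prop) : ℕ :=
  ∑ q ∈ range Q, ∑ d ∈ range 6, if (s q ↔ s (upq P Q q d)) then 0 else W q d

/-- `s` is the set of descendants of `c` for the directions `δ`. -/
def IsDq (P Q : ℕ) (δ : ℕ → ℕ) (c : ℕ) (s : ℕ → Prop) : Prop :=
  s c ∧ ¬ s Q ∧ ∀ q < Q, q ≠ c → (s q ↔ s (upq P Q q (δ q)))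

theorem sum_range_mul (a b : ℕ) (f : ℕ → ℕ) :
    ∑ z ∈ range (a * b), f z = ∑ i ∈ range a, ∑ j ∈ range b, f (i * b + j) := by
  induction a with
  | zero => simp
  | succ a ih => rw [Nat.succ_mul, sum_range_add, sum_range_succ, ih]

theorem div_eq {b j : ℕ} (i : ℕ) (h : j < b) : (i * b + j) / b = i := by
  rw [Nat.add_comm, Nat.add_mul_div_right _ _ (by omega), Nat.div_eq_of_lt h, Nat.zero_add]

theorem mod_eq {b j : ℕ} (i : ℕ) (h : j < b) : (i * b + j) % b = j := by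
  rw [Nat.add_comm, Nat.add_mul_mod_self_right, Nat.mod_eq_of_lt h]

variable {P Q K : ℕ} {W : ℕ → ℕ → ℕ}

theorem vx_node {q : ℕ} (h : q ≤ Q) : (vx Q K (q * (6 * K))).val = q * (6 * K) :=
  min_eq_left (Nat.mul_le_mul_right _ h)

theorem vx_mid {q y : ℕ} (h : q < Q) (hy : y < 6 * K) :
    (vx Q K (q * (6 * K) + y)).val = q * (6 * K) + y :=
  min_eq_left (by nlinarith [Nat.mul_le_mul_right (6 * K) (Nat.succ_le_of_lt h)])

theorem upq_le (q d : ℕ) : upq P Q q d ≤ Q := min_le_right _ _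

theorem div_le (z : Fin (Q * (6 * K) + 1)) : z.val / (6 * K) ≤ Q :=
  Nat.div_le_of_le_mul ((Nat.lt_succ_iff.1 z.2).trans_eq (Nat.mul_comm _ _))

theorem div_lt (hK : 0 < K) (z : Fin (Q * (6 * K) + 1)) (h : z.val ≠ Q * (6 * K)) :
    z.val / (6 * K) < Q :=
  (Nat.div_lt_iff_lt_mul (by omega)).2 (by have := z.2; omega)

theorem mid_lt (hK : 0 < K) (z : Fin (Q * (6 * K) + 1)) (h : z.val % (6 * K) ≠ 0) :
    z.val / (6 * K) < Q :=
  div_lt hK z fun e => h (by rw [e, Nat.mul_mod_left])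

theorem dir_lt (hK : 0 < K) (z : ℕ) : z % (6 * K) / K < 6 :=
  (Nat.div_lt_iff_lt_mul hK).2 (Nat.mod_lt _ (by omega))

theorem node_eq {z : ℕ} (h : ¬ z % (6 * K) ≠ 0) : z = z / (6 * K) * (6 * K) :=
  (Nat.div_mul_cancel (Nat.dvd_of_mod_eq_zero (not_not.1 h))).symm

/-- The bundle structure of the grid graph. -/
def bun (hP : 4 ≤ P) (hK : 0 < K) (W : ℕ → ℕ → ℕ) : Bun (Gr P Q K W) where
  mid z := z.val % (6 * K) ≠ 0
  act z := z.val % K < W (z / (6 * K)) (z % (6 * K) / K)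
  lo z := vx Q K (z / (6 * K) * (6 * K))
  up z := vx Q K (upq P Q (z / (6 * K)) (z % (6 * K) / K) * (6 * K))
  root := vx Q K (Q * (6 * K))
  rk z := Q - z / (6 * K)
  adj u v := by simp only [Gr, rel, Fin.ext_iff, vx_node (div_le _), vx_node (upq_le _ _)]
  nlo m := by simp [vx_node (div_le m)]
  nup m := by simp [vx_node (upq_le _ _)]
  nroot := by simp [vx_node le_rfl]
  lroot m h e := by
    have := congrArg Fin.val e
    rw [vx_node (div_le m), vx_node le_rfl, Nat.mul_left_inj (by omega)] at this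
    exact (mid_lt hK m h).ne this
  rlt m h _ := by
    have := mid_lt hK m h
    rw [vx_node (div_le m), vx_node (upq_le _ _), Nat.mul_div_cancel _ (by omega),
      Nat.mul_div_cancel _ (by omega), upq]
    generalize m.val / (6 * K) = q at this ⊢
    generalize m.val % (6 * K) / K = d
    omega

variable (hP : 4 ≤ P) (hK : 0 < K) (h0 : ∀ q, W q 0 = 0) (hW : ∀ q d, W q d ≤ K)

theorem lo_div (z : Fin (Q * (6 * K) + 1)) :
    ((bun hP hK W).lo z).val / (6 * K) = z / (6 * K) := by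
  simp only [bun, vx_node (div_le _)]
  exact Nat.mul_div_cancel _ (by omega)

theorem up_div (z : Fin (Q * (6 * K) + 1)) :
    ((bun hP hK W).up z).val / (6 * K) = upq P Q (z / (6 * K)) (z % (6 * K) / K) := by
  simp only [bun, vx_node (upq_le _ _)]
  exact Nat.mul_div_cancel _ (by omega)

theorem root_div : ((bun (Q := Q) hP hK W).root).val / (6 * K) = Q := by
  simp only [bun, vx_node le_rfl]
  exact Nat.mul_div_cancel _ (by omega)

theorem node_lt {z : Fin (Q * (6 * K) + 1)} (h : z ≠ (bun hP hK W).root) : z.val / (6 * K) < Q :=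
  div_lt hK z fun e => h (Fin.ext (e.trans (vx_node le_rfl).symm))

theorem node_inj {z c : Fin (Q * (6 * K) + 1)} (h1 : ¬ (bun hP hK W).mid z)
    (h2 : ¬ (bun hP hK W).mid c) (e : z.val / (6 * K) = c / (6 * K)) : z = c :=
  Fin.ext (by rw [node_eq h1, e, ← node_eq h2])

include h0 hW in
theorem wc_eq (s : ℕ → Prop) :
    (bun (Q := Q) hP hK W).wc (fun z => s (z / (6 * K))) = wq P Q W s := by
  classical
  simp only [Bun.wc, lo_div, up_div]
  simp only [bun]
  rw [Set.ncard_eq_toFinset_card', Set.toFinset_ofPred, card_filter]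
  refine (Fin.sum_univ_eq_sum_range (fun z => if z % (6 * K) ≠ 0 ∧
    z % K < W (z / (6 * K)) (z % (6 * K) / K) ∧ ¬ (s (z / (6 * K)) ↔
      s (upq P Q (z / (6 * K)) (z % (6 * K) / K))) then 1 else 0) _).trans ?_
  rw [sum_range_succ, if_neg (by simp), add_zero, sum_range_mul]
  refine sum_congr rfl fun q _ => ?_
  rw [sum_range_mul]
  refine sum_congr rfl fun d hd => ?_
  have e : ∀ t ∈ range K, (if (q * (6 * K) + (d * K + t)) % (6 * K) ≠ 0 ∧
      (q * (6 * K) + (d * K + t)) % K < W ((q * (6 * K) + (d * K + t)) / (6 * K))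
        ((q * (6 * K) + (d * K + t)) % (6 * K) / K) ∧
      ¬ (s ((q * (6 * K) + (d * K + t)) / (6 * K)) ↔ s (upq P Q ((q * (6 * K) + (d * K + t)) /
        (6 * K)) ((q * (6 * K) + (d * K + t)) % (6 * K) / K))) then 1 else 0) =
      if t < W q d ∧ ¬ (s q ↔ s (upq P Q q d)) then 1 else 0 := by
    intro t ht
    rw [mem_range] at ht hd
    have hy : d * K + t < 6 * K := by nlinarith
    rw [div_eq q hy, mod_eq q hy, div_eq d ht, show q * (6 * K) + (d * K + t) =
      (q * 6 + d) * K + t by ring, mod_eq _ ht]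
    refine if_congr ⟨fun h => h.2, fun h => ⟨fun e => ?_, h⟩⟩ rfl rfl
    obtain rfl : d = 0 := by
      by_contra hd
      nlinarith [Nat.pos_of_ne_zero hd]
    simp [h0] at h
  rw [sum_congr rfl e]
  split_ifs with h
  · simp [h]
  · simp only [h, not_false_iff, and_true, ← card_filter]
    rw [show filter (fun t => t < W q d) (range K) = range (W q d) from by
      ext t
      have := hW q d
      simp only [mem_filter, mem_range]
      omega, card_range]

include h0 in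
theorem exists_ch {δ : ℕ → ℕ} (hδ : ∀ q < Q, δ q < 6 ∧ 0 < W q (δ q)) :
    ∃ ch, (bun (Q := Q) hP hK W).Ch ch ∧ ∀ z, z ≠ (bun hP hK W).root →
      ((bun hP hK W).up (ch z)).val / (6 * K) = upq P Q (z / (6 * K)) (δ (z / (6 * K))) := by
  have key : ∀ z : Fin (Q * (6 * K) + 1), z ≠ (bun hP hK W).root →
      (vx Q K (z / (6 * K) * (6 * K) + δ (z / (6 * K)) * K)).val / (6 * K) = z / (6 * K) ∧
      (vx Q K (z / (6 * K) * (6 * K) + δ (z / (6 * K)) * K)).val % (6 * K) =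
        δ (z / (6 * K)) * K := by
    intro z hz
    have h1 := node_lt hP hK hz
    have h2 : δ (z / (6 * K)) * K < 6 * K := Nat.mul_lt_mul_of_pos_right (hδ _ h1).1 hK
    rw [vx_mid h1 h2, div_eq _ h2, mod_eq _ h2]
    exact ⟨rfl, rfl⟩
  refine ⟨fun z => vx Q K (z / (6 * K) * (6 * K) + δ (z / (6 * K)) * K), fun z z1 z2 => ?_,
    fun z z2 => by rw [up_div, (key z z2).1, (key z z2).2, Nat.mul_div_cancel _ hK]⟩
  obtain ⟨k1, k2⟩ := key z z2
  have h1 := (hδ _ (node_lt hP hK z2)).2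
  refine ⟨fun e => ?_, ?_, node_inj hP hK ((bun hP hK W).nlo _) z1 (by rw [lo_div, k1])⟩
  · rw [k2, Nat.mul_eq_zero, or_iff_left hK.ne'] at e
    simp [e, h0] at h1
  · show _ % K < W _ _
    rw [← Nat.mod_mod_of_dvd _ (Dvd.intro_left 6 rfl : K ∣ 6 * K), k1, k2, Nat.mul_mod_left,
      Nat.mul_div_cancel _ hK]
    exact h1

include hP hK h0 in
theorem gr_connected {δ : ℕ → ℕ} (hδ : ∀ q < Q, δ q < 6 ∧ 0 < W q (δ q)) :
    (Gr P Q K W).Connected := by
  obtain ⟨ch, h, -⟩ := exists_ch hP hK h0 hδ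
  exact (bun hP hK W).connected h

include hP h0 hW in
theorem gr_complete (hK2 : 2 ≤ K) {δ : ℕ → ℕ} (hδ : ∀ q < Q, δ q < 6 ∧ 0 < W q (δ q))
    (h : ∀ c < Q, ∃ s, IsDq P Q δ c s ∧ wq P Q W s ≤ K) : stc (Gr P Q K W) ≤ K := by
  have hK : 0 < K := by omega
  obtain ⟨ch, h1, h2⟩ := exists_ch hP hK h0 hδ
  refine (stc_le_iff (gr_connected hP hK h0 hδ) K).2 ((bun hP hK W).complete h1 hK2 ?_)
  intro c c1 c2
  obtain ⟨s, s1, s2⟩ := h _ (node_lt hP hK c2)
  refine ⟨fun z => s (z / (6 * K)), ⟨s1.1, by simpa only [root_div] using s1.2.1, fun z z1 z2 z3 => ?_⟩,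
    (wc_eq hP hK h0 hW s).trans_le s2⟩
  simp only [h2 z z2]
  exact s1.2.2 _ (node_lt hP hK z2) fun e => z3 (node_inj hP hK z1 c1 e)

theorem le_wq (s : ℕ → Prop) {q d q' d' : ℕ} (h1 : q < Q) (h2 : d < 6) (h3 : q' < Q) (h4 : d' < 6)
    (hne : q ≠ q') (h5 : ¬ (s q ↔ s (upq P Q q d))) (h6 : ¬ (s q' ↔ s (upq P Q q' d'))) :
    W q d + W q' d' ≤ wq P Q W s := by
  classical
  refine le_trans (add_le_add ?_ ?_) (add_le_sum (fun _ _ => Nat.zero_le _)
    (mem_range.2 h1) (mem_range.2 h3) hne)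
  · exact (if_neg h5).ge.trans (single_le_sum (f := fun d => if (s q ↔ s (upq P Q q d)) then 0
      else W q d) (fun _ _ => Nat.zero_le _) (mem_range.2 h2))
  · exact (if_neg h6).ge.trans (single_le_sum (f := fun d => if (s q' ↔ s (upq P Q q' d)) then 0
      else W q' d) (fun _ _ => Nat.zero_le _) (mem_range.2 h4))

include hP hK h0 hW in
theorem gr_sound (hc : (Gr P Q K W).Connected) (χ : ℕ → ℕ)
    (hH : ∀ q < Q, ∀ d < 6, 0 < W q d → χ q ≠ χ (upq P Q q d) → K < 2 * W q d)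
    (hA : ∀ q < Q, (∃ d < 6, 0 < W q d ∧ χ q ≠ χ (upq P Q q d)) ∨
      ∀ q' < Q, ∀ d < 6, 0 < W q' d → upq P Q q' d ≠ q) (h : stc (Gr P Q K W) ≤ K) :
    ∃ δ : ℕ → ℕ, (∀ q < Q, δ q < 6 ∧ 0 < W q (δ q)) ∧
      ∀ c < Q, ∀ s, IsDq P Q δ c s → wq P Q W s ≤ K := by
  classical
  obtain ⟨T, t1, t2, t3⟩ := (stc_le_iff hc K).1 h
  set B := bun (Q := Q) hP hK W with hB
  have nd : ∀ q ≤ Q, ¬ B.mid (vx Q K (q * (6 * K))) ∧
      (vx Q K (q * (6 * K))).val / (6 * K) = q := fun q hq =>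
    ⟨by simp [hB, bun, vx_node hq], by rw [vx_node hq, Nat.mul_div_cancel _ (by omega)]⟩
  have key : ∀ z, ∃ m, ¬ B.mid z → z ≠ B.root → B.Used T m ∧ B.lo m = z := by
    intro z
    by_cases z1 : B.mid z
    · exact ⟨z, fun h => absurd z1 h⟩
    by_cases z2 : z = B.root
    · exact ⟨z, fun _ h => absurd z2 h⟩
    have hq := node_lt hP hK z2
    rcases hA _ hq with ⟨d, d1, d2, d3⟩ | hI
    · obtain ⟨m, σ, m1, m2, m3, m4, m5⟩ := B.used t1 t2 t3 (fun v => χ (v.val / (6 * K))) z1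
        (nd _ (upq_le (z / (6 * K)) d)).1 (by simpa only [(nd _ (upq_le _ _)).2] using d3)
      refine ⟨m, fun _ _ => ⟨m1, by_contra fun hne => ?_⟩⟩
      have e : ∀ v, ¬ B.mid v → vx Q K (v.val / (6 * K) * (6 * K)) = v := fun v hv =>
        node_inj hP hK (nd _ (div_le v)).1 hv (nd _ (div_le v)).2
      rw [← B.wc_congr (σ := fun v => σ (vx Q K (v.val / (6 * K) * (6 * K))))
        (fun v hv => by rw [e v hv]), wc_eq hP hK h0 hW fun q => σ (vx Q K (q * (6 * K)))] at m5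
      have hm := mid_lt hK m m1.1
      have a1 : 0 < W (m / (6 * K)) (m % (6 * K) / K) := lt_of_le_of_lt (Nat.zero_le _) m1.2.1
      simp only [hB, lo_div, up_div] at m2
      have := le_wq (P := P) (W := W) (fun q => σ (vx Q K (q * (6 * K)))) hq d1 hm (dir_lt hK m)
        (fun e' => hne (node_inj hP hK (B.nlo m) z1 ((lo_div hP hK m).trans e'.symm)))
        (by simpa only [e z z1] using m3) m4
      have := hH _ hq d d1 d2 d3
      have := hH _ hm _ (dir_lt hK m) a1 m2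
      omega
    · obtain ⟨m, σ, m1, m2, -⟩ := B.used t1 t2 t3 (fun v => v = z) z1 B.nroot
        (by simpa using Ne.symm z2)
      refine ⟨m, fun _ _ => ⟨m1, by_contra fun hne => ?_⟩⟩
      have hu : B.up m = z := by_contra fun h => m2 (propext (by simp [hne, h]))
      exact hI _ (mid_lt hK m m1.1) _ (dir_lt hK m) (lt_of_le_of_lt (Nat.zero_le _) m1.2.1)
        ((up_div hP hK m).symm.trans (by rw [← hB, hu]))
  choose ch hch using key
  have nr : ∀ q < Q, vx Q K (q * (6 * K)) ≠ B.root := fun q hq e => by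
    have := (nd q hq.le).2
    rw [e, root_div] at this
    omega
  have hd : ∀ z, ¬ B.mid z → z ≠ B.root → (ch z).val / (6 * K) = z / (6 * K) := fun z z1 z2 => by
    rw [← lo_div hP hK (W := W), ← hB, (hch z z1 z2).2]
  refine ⟨fun q => (ch (vx Q K (q * (6 * K)))).val % (6 * K) / K, fun q hq => ⟨dir_lt hK _, ?_⟩,
    fun c hc s hs => ?_⟩
  · have := lt_of_le_of_lt (Nat.zero_le _) (hch _ (nd q hq.le).1 (nr q hq)).1.2.1
    rwa [hd _ (nd q hq.le).1 (nr q hq), (nd q hq.le).2] at this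
  rw [← wc_eq hP hK h0 hW]
  refine B.sound t2 t3 hch (nd c hc.le).1 (nr c hc) ⟨by simpa only [(nd c hc.le).2] using hs.1,
    by simpa only [hB, root_div] using hs.2.1, fun z z1 z2 z3 => ?_⟩
  have := hs.2.2 _ (node_lt hP hK z2) fun e => z3 (node_inj hP hK z1 (nd c hc.le).1
    (e.trans (nd c hc.le).2.symm))
  simp only [node_inj hP hK (nd _ (div_le z)).1 z1 (nd _ (div_le z)).2] at this
  simpa only [hB, up_div, hd z z1 z2] using this

include hK in
theorem gr_planar (h1 : ∀ q < Q, ∀ d < 6, 0 < W q d → upq P Q q d / P = q / P + 1)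
    (h2 : ∀ q < Q, ∀ d < 6, ∀ q' < Q, ∀ d' < 6, 0 < W q d → 0 < W q' d' → q / P = q' / P →
      q < q' → q + d ≤ q' + d') : IsPlanar (Gr P Q K W) := by
  have hB : 0 < 6 * K := by omega
  have cs : ∀ u v : Fin (Q * (6 * K) + 1), rel P Q K W u v → u.val % (6 * K) ≠ 0 ∧
      v.val % (6 * K) = 0 ∧ (v.val / (6 * K) = u / (6 * K) ∨
        0 < W (u / (6 * K)) (u % (6 * K) / K) ∧
        v.val / (6 * K) = upq P Q (u / (6 * K)) (u % (6 * K) / K) ∧
        v.val / (6 * K) / P = u / (6 * K) / P + 1) := by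
    rintro u v ⟨a1, a2 | ⟨a2, a3⟩⟩
    · exact ⟨a1, by simp [a2], Or.inl (by rw [a2, Nat.mul_div_cancel _ hB])⟩
    · have a4 := lt_of_le_of_lt (Nat.zero_le _) a2
      refine ⟨a1, by simp [a3], Or.inr ⟨a4, ?_⟩⟩
      rw [a3, Nat.mul_div_cancel _ hB]
      exact ⟨rfl, h1 _ (mid_lt hK u a1) _ (dir_lt hK u) a4⟩
  refine planar_of_level _ (fun z => 2 * (z.val / (6 * K) / P) + if z.val % (6 * K) = 0 then 0
    else 1) Fin.val Fin.val_injective ?_ ?_
  · rintro u v (h | h) <;> obtain ⟨a1, a2, a3 | ⟨-, -, a3⟩⟩ := cs _ _ h <;>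
      rw [if_neg a1, if_pos a2, a3] <;> omega
  · intro a b c d hab hcd l1 l2 l3 hlt
    have hac := Nat.div_le_div_right (c := 6 * K) hlt.le
    rcases hab with h | h <;> obtain ⟨a1, a2, a3⟩ := cs _ _ h <;> rcases hcd with h' | h' <;>
      obtain ⟨c1, c2, c3⟩ := cs _ _ h' <;>
      simp only [if_neg a1, if_pos a2, if_neg c1, if_pos c2] at l1 l2 l3
    · rcases a3 with a3 | ⟨a3, a4, -⟩
      · rw [a3] at l1
        omega
      rcases c3 with c3 | ⟨c3, c4, -⟩
      · rw [c3] at l3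
        omega
      rw [node_eq (not_not.2 a2), node_eq (not_not.2 c2), a4, c4]
      refine Nat.mul_le_mul_right _ (min_le_min_right _ ?_)
      rcases hac.lt_or_eq with h3 | h3
      · have := h2 _ (mid_lt hK a a1) _ (dir_lt hK a) _ (mid_lt hK c c1) _ (dir_lt hK c) a3 c3
          (by omega) h3
        omega
      · have e1 := Nat.div_add_mod a (6 * K)
        have e2 := Nat.div_add_mod c (6 * K)
        rw [h3] at e1
        have := Nat.div_le_div_right (c := K) (show a % (6 * K) ≤ c % (6 * K) by omega)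
        omega
    · omega
    · omega
    · rcases a3 with a3 | ⟨-, -, a3⟩
      · rcases c3 with c3 | ⟨-, -, c3⟩
        · have h3 : a.val / (6 * K) ≠ c / (6 * K) := fun e => hlt.ne
            (by rw [node_eq (not_not.2 a2), e, ← node_eq (not_not.2 c2)])
          exact (Nat.lt_of_div_lt_div (c := 6 * K) (by omega)).le
        · omega
      · omega

include hK in
theorem gr_pathwidth (hP : 0 < P)
    (h1 : ∀ q < Q, ∀ d < 6, 0 < W q d → upq P Q q d / P = q / P + 1) :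
    PathwidthLE (Gr P Q K W) (2 * P) := by
  classical
  have hB : 0 < 6 * K := by omega
  refine ⟨_, fun z : Fin (Q * (6 * K) + 1) => insert z (univ.filter fun v => v.val % (6 * K) = 0 ∧
    z / (6 * K) / P ≤ v.val / (6 * K) / P ∧ v.val / (6 * K) / P ≤ z / (6 * K) / P + 1),
    fun z => (card_insert_le _ _).trans (Nat.succ_le_succ ?_), fun v => ⟨v, mem_insert_self _ _⟩,
    ?_, ?_⟩
  · refine (card_le_card_of_injOn (t := Ico (z / (6 * K) / P * P) (z / (6 * K) / P * P + 2 * P))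
      (fun v => v.val / (6 * K)) (fun v hv => ?_) fun v hv w hw e => Fin.ext ?_).trans (by simp)
    · simp only [coe_filter, mem_univ, true_and, Set.mem_ofPred_eq] at hv
      rw [coe_Ico]
      exact ⟨(Nat.le_div_iff_mul_le hP).1 hv.2.1, by
        have := (Nat.div_lt_iff_lt_mul hP).1 (Nat.lt_succ_of_le hv.2.2)
        simpa only [Nat.succ_mul, two_mul, add_assoc] using this⟩
    · simp only [coe_filter, mem_univ, true_and, Set.mem_ofPred_eq] at hv hw e
      rw [node_eq (not_not.2 hv.1), e, ← node_eq (not_not.2 hw.1)]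
  · have key : ∀ u v : Fin (Q * (6 * K) + 1), rel P Q K W u v → v.val % (6 * K) = 0 ∧
        u / (6 * K) / P ≤ v.val / (6 * K) / P ∧ v.val / (6 * K) / P ≤ u / (6 * K) / P + 1 := by
      rintro u v ⟨a1, a2 | ⟨a2, a3⟩⟩
      · rw [a2, Nat.mul_div_cancel _ hB]
        simp
      · rw [a3, Nat.mul_div_cancel _ hB, h1 _ (mid_lt hK u a1) _ (dir_lt hK u)
          (lt_of_le_of_lt (Nat.zero_le _) a2)]
        simp
    rintro u v (h | h)
    · exact ⟨u, mem_insert_self _ _, by simp [key u v h]⟩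
    · exact ⟨v, by simp [key v u h], mem_insert_self _ _⟩
  · intro v i j l hij hjl hi hl
    simp only [mem_insert, mem_filter, mem_univ, true_and] at hi hl ⊢
    have m1 : i.val / (6 * K) / P ≤ j / (6 * K) / P :=
      Nat.div_le_div_right (Nat.div_le_div_right hij)
    have m2 : j.val / (6 * K) / P ≤ l / (6 * K) / P :=
      Nat.div_le_div_right (Nat.div_le_div_right hjl)
    rcases hi with rfl | hi
    · rcases hl with rfl | hl
      · exact Or.inl (le_antisymm hij hjl)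
      · exact Or.inr ⟨hl.1, by omega, by omega⟩
    · rcases hl with rfl | hl
      · exact Or.inr ⟨hi.1, by omega, by omega⟩
      · exact Or.inr ⟨hi.1, by omega, by omega⟩

end Pool.Agent.Work.MP_1e0b64_lc
end

-- merged part: Pool.Agent.Work.MP_1e0b64_lc.Grid2
section
/-!
The grid graph in the coordinates (level, position).
-/

namespace Pool.Agent.Work.MP_1e0b64_lc

open SimpleGraph Finset

/-- Position of the upper end. -/
def u2 (L l p d : ℕ) : ℕ := if l = L then 0 else p + d - 3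

open Classical in
/-- The weight of the macro edges at `(l, p)` that cross the cut `s`. -/
noncomputable def g2 (L : ℕ) (W : ℕ → ℕ → ℕ → ℕ) (s : ℕ → ℕ → Prop) (l p : ℕ) : ℕ :=
  ∑ d ∈ range 6, if (s l p ↔ s (l + 1) (u2 L l p d)) then 0 else W l p d

/-- The weight of the cut `s`. -/
noncomputable def w2 (P L : ℕ) (W : ℕ → ℕ → ℕ → ℕ) (s : ℕ → ℕ → Prop) : ℕ :=
  ∑ l ∈ range (L + 1), ∑ p ∈ range P, g2 L W s l p

/-- `s` is the set of descendants of `(a, b)`. -/
def D2 (P L : ℕ) (δ : ℕ → ℕ → ℕ) (a b : ℕ) (s : ℕ → ℕ → Prop) : Prop :=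
  s a b ∧ ¬ s (L + 1) 0 ∧
    ∀ l ≤ L, ∀ p < P, ¬ (l = a ∧ p = b) → (s l p ↔ s (l + 1) (u2 L l p (δ l p)))

/-- Admissible directions. -/
def Val (P L : ℕ) (W : ℕ → ℕ → ℕ → ℕ) (δ : ℕ → ℕ → ℕ) : Prop :=
  ∀ l ≤ L, ∀ p < P, δ l p < 6 ∧ 0 < W l p (δ l p)

/-- The grid graph with `L + 1` levels of `P` nodes. -/
def Gr2 (P L K : ℕ) (W : ℕ → ℕ → ℕ → ℕ) : SimpleGraph (Fin ((L + 1) * P * (6 * K) + 1)) :=
  Gr P ((L + 1) * P) K fun q d => W (q / P) (q % P) d

/-- Conditions on the weights. -/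
structure Wok (P L K : ℕ) (W : ℕ → ℕ → ℕ → ℕ) : Prop where
  hP : 4 ≤ P
  hK : 2 ≤ K
  h0 : ∀ l p, W l p 0 = 0
  le : ∀ l p d, W l p d ≤ K
  inr : ∀ l p d, p < P → 0 < W l p d → 3 ≤ p + d ∧ p + d - 3 < P
  mono : ∀ l p d p' d', 0 < W l p d → 0 < W l p' d' → p < p' → p + d ≤ p' + d'

variable {P L K : ℕ} {W : ℕ → ℕ → ℕ → ℕ}

theorem lev_le {q : ℕ} (h : q < (L + 1) * P) : q / P ≤ L :=
  Nat.lt_succ_iff.1 (Nat.div_lt_of_lt_mul (Nat.mul_comm P _ ▸ h))

theorem idx_lt {l p : ℕ} (h : l ≤ L) (h' : p < P) : l * P + p < (L + 1) * P := by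
  nlinarith [Nat.mul_le_mul_right P h]

theorem Wok.up (h : Wok P L K W) {q d : ℕ} (hq : q < (L + 1) * P) (hw : 0 < W (q / P) (q % P) d) :
    upq P ((L + 1) * P) q d / P = q / P + 1 ∧
      upq P ((L + 1) * P) q d % P = u2 L (q / P) (q % P) d := by
  have hP := h.hP
  have h1 := h.inr _ _ d (Nat.mod_lt q (by omega)) hw
  have h2 := Nat.div_add_mod' q P
  have h3 := lev_le hq
  have : upq P ((L + 1) * P) q d = (q / P + 1) * P + u2 L (q / P) (q % P) d ∧
      u2 L (q / P) (q % P) d < P := by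
    unfold upq u2
    generalize q / P = l at *
    split_ifs with e
    · subst e
      rw [Nat.succ_mul]
      omega
    · have := Nat.mul_le_mul_right P (show l + 1 ≤ L by omega)
      rw [Nat.succ_mul] at this
      rw [Nat.succ_mul, Nat.succ_mul]
      omega
  rw [this.1, div_eq _ this.2, mod_eq _ this.2]
  exact ⟨rfl, rfl⟩

theorem Wok.wq_eq (h : Wok P L K W) (s : ℕ → ℕ → Prop) :
    wq P ((L + 1) * P) (fun q d => W (q / P) (q % P) d) (fun q => s (q / P) (q % P)) =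
      w2 P L W s := by
  rw [wq, sum_range_mul]
  refine sum_congr rfl fun l hl => sum_congr rfl fun p hp => sum_congr rfl fun d _ => ?_
  rw [mem_range] at hl hp
  have := h.up (d := d) (idx_lt (Nat.lt_succ_iff.1 hl) hp)
  rw [div_eq l hp, mod_eq l hp] at this ⊢
  rcases Nat.eq_zero_or_pos (W l p d) with e | e
  · simp [e]
  · rw [(this e).1, (this e).2]

theorem Wok.val (h : Wok P L K W) {δ : ℕ → ℕ → ℕ} (hδ : Val P L W δ) :
    ∀ q < (L + 1) * P, δ (q / P) (q % P) < 6 ∧ 0 < W (q / P) (q % P) (δ (q / P) (q % P)) :=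
  fun q hq => hδ _ (lev_le hq) _ (Nat.mod_lt q (by have := h.hP; omega))

theorem Wok.isD (h : Wok P L K W) {δ : ℕ → ℕ} (hδ : ∀ q < (L + 1) * P,
    0 < W (q / P) (q % P) (δ q)) {c : ℕ} {s : ℕ → ℕ → Prop}
    (hs : D2 P L (fun l p => δ (l * P + p)) (c / P) (c % P) s) :
    IsDq P ((L + 1) * P) δ c fun q => s (q / P) (q % P) := by
  have hP : 0 < P := by have := h.hP; omega
  refine ⟨hs.1, by simpa [Nat.mul_div_cancel _ hP] using hs.2.1, fun q hq hne => ?_⟩
  have := hs.2.2 _ (lev_le hq) _ (Nat.mod_lt q hP) fun e => hne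
    (by rw [← Nat.div_add_mod q P, e.1, e.2, Nat.div_add_mod])
  simpa only [(h.up hq (hδ q hq)).1, (h.up hq (hδ q hq)).2, Nat.div_add_mod'] using this

theorem Wok.connected (h : Wok P L K W) {δ : ℕ → ℕ → ℕ} (hδ : Val P L W δ) :
    (Gr2 P L K W).Connected :=
  gr_connected h.hP (by have := h.hK; omega) (fun _ => h.h0 _ _) (h.val hδ)

theorem Wok.complete (h : Wok P L K W) {δ : ℕ → ℕ → ℕ} (hδ : Val P L W δ)
    (hs : ∀ a ≤ L, ∀ b < P, ∃ s, D2 P L δ a b s ∧ w2 P L W s ≤ K) : stc (Gr2 P L K W) ≤ K := by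
  refine gr_complete h.hP (fun _ => h.h0 _ _) (fun _ _ => h.le _ _ _) h.hK (h.val hδ)
    fun c hc => ?_
  obtain ⟨s, s1, s2⟩ := hs _ (lev_le hc) _ (Nat.mod_lt c (by have := h.hP; omega))
  refine ⟨_, h.isD (fun q hq => (h.val hδ q hq).2) ⟨s1.1, s1.2.1, fun l hl p hp hne => ?_⟩,
    (h.wq_eq s).trans_le s2⟩
  simpa only [div_eq l hp, mod_eq l hp] using s1.2.2 l hl p hp hne

theorem Wok.sound (h : Wok P L K W) (hc : (Gr2 P L K W).Connected) (χ : ℕ → ℕ → ℕ)
    (hH : ∀ l ≤ L, ∀ p < P, ∀ d, 0 < W l p d → χ l p ≠ χ (l + 1) (u2 L l p d) → K < 2 * W l p d)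
    (hA : ∀ l ≤ L, ∀ p < P, (∃ d < 6, 0 < W l p d ∧ χ l p ≠ χ (l + 1) (u2 L l p d)) ∨
      ∀ l' p' d, 0 < W l' p' d → l' + 1 = l → u2 L l' p' d ≠ p) (hs : stc (Gr2 P L K W) ≤ K) :
    ∃ δ, Val P L W δ ∧ ∀ a ≤ L, ∀ b < P, ∀ s, D2 P L δ a b s → w2 P L W s ≤ K := by
  have hP : 0 < P := by have := h.hP; omega
  obtain ⟨δ, h1, h2⟩ := gr_sound h.hP (by have := h.hK; omega) (fun _ => h.h0 _ _)
    (fun _ _ => h.le _ _ _) hc (fun q => χ (q / P) (q % P))
    (fun q hq d _ hw hx => hH _ (lev_le hq) _ (Nat.mod_lt q hP) d hw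
      (by simpa only [(h.up hq hw).1, (h.up hq hw).2] using hx))
    (fun q hq => (hA _ (lev_le hq) _ (Nat.mod_lt q hP)).imp
      (fun ⟨d, d1, d2, d3⟩ => ⟨d, d1, d2, by simpa only [(h.up hq d2).1, (h.up hq d2).2] using d3⟩)
      fun hI q' hq' d _ hw e => hI _ _ d hw (by rw [← (h.up hq' hw).1, e])
        (by rw [← (h.up hq' hw).2, e])) hs
  refine ⟨fun l p => δ (l * P + p), fun l hl p hp => ?_, fun a ha b hb s hs => ?_⟩
  · simpa only [div_eq l hp, mod_eq l hp] using h1 _ (idx_lt hl hp)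
  · rw [← h.wq_eq]
    exact h2 _ (idx_lt ha hb) _ (h.isD (fun q hq => (h1 q hq).2)
      (by rwa [div_eq a hb, mod_eq a hb]))

theorem Wok.planar (h : Wok P L K W) : IsPlanar (Gr2 P L K W) := by
  refine gr_planar (by have := h.hK; omega) (fun q hq d _ hw => (h.up hq hw).1) ?_
  intro q _ d _ q' _ d' _ h1 h2 e hlt
  have e1 := Nat.div_add_mod q P
  have e2 := Nat.div_add_mod q' P
  rw [e] at h1 e1
  have := h.mono _ _ _ _ _ h1 h2 (by omega)
  omega

theorem Wok.pathwidth (h : Wok P L K W) : PathwidthLE (Gr2 P L K W) (2 * P) :=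
  gr_pathwidth (by have := h.hK; omega) (by have := h.hP; omega) fun q hq d _ hw => (h.up hq hw).1

end Pool.Agent.Work.MP_1e0b64_lc
end
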