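import Pool.Agent.Work.MP_1e0b64_lc.Mach

/-!
The column machine accepts if and only if the grid graph has small congestion.
-/

namespace Pool.Agent.Work.MP_1e0b64_lc

open SimpleGraph Finset

variable {S L : ℕ} {cu cd th : ℕ → ℕ → ℕ}

theorem sum_pt (n m a b c : ℕ) :
    ∑ l ∈ range n, ∑ p ∈ range m, (if p = b then (if l = a then c else 0) else 0) ≤ c := by
  simp only [sum_ite_eq', mem_range]
  split_ifs <;> simp
  split_ifs <;> simp

theorem ite_zero_le' {c : Prop} {i : Decidable c} (v : ℕ) : @ite ℕ c i 0 v ≤ v := by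
  by_cases h : c
  · rw [if_pos h]
    exact Nat.zero_le _
  · rw [if_neg h]

theorem Wt_dirs_eq (o : ℕ → ℕ → ℕ) {l p : ℕ} (h0 : ¬ p % 4 = 0) (h1 : p % 4 ≠ 2 ∨ l = L) :
    Wt S L cu cd th l p (dirs L o l p) = if p % 4 = 2 then Kv L else Kv L - (L + 2) := by
  rcases show p % 4 = 1 ∨ p % 4 = 3 ∨ (p % 4 = 2 ∧ l = L) by omega with e | e | ⟨e, e'⟩
  · simp [Wt, dirs, e]
  · simp [Wt, dirs, e]
  · simp [Wt, dirs, e, e']

theorem load_complete (hS : 0 < S) (hu : ∀ c s, cu c s ≤ 1) (hd : ∀ c s, cd c s ≤ 1)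
    (o : ℕ → ℕ → ℕ) (h : ∀ c < L, Ok S (th c) (acc cu cd o c) (o c)) :
    stc (Gr2 (4 * S + 1) L (Kv L) (Wt S L cu cd th)) ≤ Kv L := by
  refine (wok hS hu hd).complete (val_dirs hu hd o) fun a ha b hb => ?_
  have hK := Kv_ge L
  by_cases h0 : b % 4 = 0
  · obtain ⟨i, rfl⟩ : ∃ i, b = 4 * i := ⟨b / 4, by omega⟩
    refine ⟨_, sR_D o i ha, ?_⟩
    rcases a with _ | c
    · rw [sR_w o ha (by omega)]
      simp only [ld, Nat.not_lt_zero, if_false, Nat.succ_ne_zero, sum_const_zero, ite_self]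
      unfold cap
      split_ifs <;> omega
    · exact (rows_iff hS hu hd o ha).2 (h c ha) i (by omega)
  have hD : D2 (4 * S + 1) L (dirs L o) a b fun l p => l = a ∧ p = b := by
    refine ⟨⟨rfl, rfl⟩, by omega, fun l _ p _ hne => ?_⟩
    unfold u2 dirs
    split_ifs <;> omega
  refine ⟨_, hD, le_trans (sum_le_sum fun l hl => sum_le_sum (g := fun p =>
    (if p = b then (if l = a then (if b % 4 = 2 then Kv L else Kv L - (L + 2)) else 0) else 0) +
    if p = 4 * (b / 4) + 2 then (if l = a - 1 then (if b % 4 = 2 then 0 else L + 2) else 0)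
      else 0) fun p hp => ?_) ?_⟩
  · rw [mem_range] at hl hp
    by_cases h1 : p % 4 ≠ 2 ∨ l = L
    · rw [g_one _ o h1]
      by_cases e : l = a ∧ p = b
      · obtain ⟨rfl, rfl⟩ := e
        refine (ite_zero_le' _).trans (le_add_right ?_)
        rw [Wt_dirs_eq o h0 h1, if_pos rfl, if_pos rfl]
      · rw [if_pos (hD.2.2 l (by omega) p hp e)]
        exact Nat.zero_le _
    · obtain ⟨t, rfl⟩ : ∃ t, p = 4 * t + 2 := ⟨p / 4, by omega⟩
      have := hu l t
      have := hd l t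
      rw [g_item _ t (by omega)]
      clear hD h hp ha hb
      by_cases A : l = a ∧ 4 * t + 2 = b
      · refine (add_le_add (add_le_add (add_le_add (ite_zero_le' _) (ite_zero_le' _))
          (ite_zero_le' _)) (ite_zero_le' _)).trans (le_add_right ?_)
        rw [if_pos A.2, if_pos A.1, if_pos (show b % 4 = 2 by omega)]
        omega
      have n0 : ¬ (l + 1 = a ∧ 4 * t = b) := by omega
      have n4 : ¬ (l + 1 = a ∧ 4 * t + 4 = b) := by omega
      rw [if_pos (iff_of_false A n0), if_pos (iff_of_false A n4)]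
      by_cases B : l + 1 = a ∧ 4 * t + 1 = b
      · rw [if_pos (iff_of_false A (show ¬ (l + 1 = a ∧ 4 * t + 3 = b) by omega))]
        refine (add_le_add (add_le_add (add_le_add le_rfl (ite_zero_le' _)) le_rfl)
          le_rfl).trans (le_add_left ?_)
        rw [if_pos (show 4 * t + 2 = 4 * (b / 4) + 2 by omega),
          if_pos (show l = a - 1 by omega), if_neg (show ¬ b % 4 = 2 by omega)]
        omega
      rw [if_pos (iff_of_false A B)]
      by_cases C : l + 1 = a ∧ 4 * t + 3 = b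
      · refine (add_le_add (add_le_add le_rfl (ite_zero_le' _)) le_rfl).trans (le_add_left ?_)
        rw [if_pos (show 4 * t + 2 = 4 * (b / 4) + 2 by omega),
          if_pos (show l = a - 1 by omega), if_neg (show ¬ b % 4 = 2 by omega)]
        omega
      rw [if_pos (iff_of_false A C)]
      exact Nat.zero_le _
  · simp only [sum_add_distrib]
    refine (add_le_add (sum_pt _ _ _ _ _) (sum_pt _ _ _ _ _)).trans ?_
    split_ifs <;> omega

theorem Wt_cases {l p d : ℕ} (h : 0 < Wt S L cu cd th l p d) :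
    (p % 4 = 0 ∧ d = 3 ∧ Wt S L cu cd th l p d = Kv L + 1 - cap S L cu cd th l (p / 4)) ∨
    (p % 4 = 1 ∧ d = 2 ∧ Wt S L cu cd th l p d = Kv L - (L + 2)) ∨
    (p % 4 = 3 ∧ d = 4 ∧ Wt S L cu cd th l p d = Kv L - (L + 2)) ∨
    (p % 4 = 2 ∧ l = L ∧ d = 3 ∧ Wt S L cu cd th l p d = Kv L) ∨
    (p % 4 = 2 ∧ l ≠ L ∧ (d = 1 ∨ d = 2 ∨ d = 4 ∨ d = 5)) := by
  rcases show p % 4 = 0 ∨ p % 4 = 1 ∨ p % 4 = 3 ∨ p % 4 = 2 by omega with e | e | e | e <;>
    simp only [Wt, e] at h ⊢ <;> by_cases g : l = L <;> simp [g] at h ⊢ <;>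
    first | simp [h.1] | (split_ifs at h <;> omega)

theorem no_leaf {δ : ℕ → ℕ → ℕ} (h1 : Val (4 * S + 1) L (Wt S L cu cd th) δ)
    (h2 : ∀ a ≤ L, ∀ b < 4 * S + 1, ∀ s, D2 (4 * S + 1) L δ a b s →
      w2 (4 * S + 1) L (Wt S L cu cd th) s ≤ Kv L) {l t e : ℕ} (hl : l < L) (ht : t < S)
    (he : e = 1 ∨ e = 3) : δ l (4 * t + 2) ≠ e + 1 := by
  intro hδ
  have hK := Kv_ge L
  have hw := h2 (l + 1) hl (4 * t + e) (by omega)
    (fun l' p' => (l' = l + 1 ∧ p' = 4 * t + e) ∨ (l' = l ∧ p' = 4 * t + 2))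
    ⟨Or.inl ⟨rfl, rfl⟩, by omega, fun l' hl' p' hp' hne => by
      by_cases e' : l' = l ∧ p' = 4 * t + 2
      · obtain ⟨rfl, rfl⟩ := e'
        unfold u2
        split_ifs <;> omega
      · refine iff_of_false (by omega) ?_
        unfold u2
        rcases Wt_cases (h1 l' hl' p' hp').2 with h | h | h | h | h <;> split_ifs <;> omega⟩
  have := (add_le_add (single_le_sum (fun _ _ => Nat.zero_le _)
    (mem_range.2 (show 4 * t + e < 4 * S + 1 by omega))) (single_le_sum
    (fun _ _ => Nat.zero_le _) (mem_range.2 (show 4 * t + 2 < 4 * S + 1 by omega)))).trans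
    ((add_le_sum (fun _ _ => Nat.zero_le _) (mem_range.2 (show l + 1 < L + 1 by omega))
      (mem_range.2 (show l < L + 1 by omega)) (by omega)).trans hw)
  rw [g_one _ (fun _ _ => 0) (by omega), g_item _ t (by omega), if_neg (by omega),
    show Wt S L cu cd th (l + 1) (4 * t + e) (dirs L (fun _ _ => 0) (l + 1) (4 * t + e)) =
      Kv L - (L + 2) by rcases he with rfl | rfl <;> simp [Wt, dirs, Nat.add_mod]] at this
  rcases he with rfl | rfl <;> simp at this <;> omega

theorem load_sound (hS : 0 < S) (hu : ∀ c s, cu c s ≤ 1) (hd : ∀ c s, cd c s ≤ 1)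
    (h : stc (Gr2 (4 * S + 1) L (Kv L) (Wt S L cu cd th)) ≤ Kv L) :
    ∃ o : ℕ → ℕ → ℕ, ∀ c < L, Ok S (th c) (acc cu cd o c) (o c) := by
  have hK := Kv_ge L
  obtain ⟨δ, h1, h2⟩ := (wok hS hu hd).sound ((wok hS hu hd).connected (val_dirs hu hd fun _ _ =>
    0)) (fun l p => if p % 4 = 2 ∧ l < L then l + 1 else l) (fun l hl p _ d hw => by
      have := cap_le (S := S) (th := th) hu hd hl (p / 4)
      unfold u2
      rcases Wt_cases hw with h | h | h | h | h <;> split_ifs <;> omega) (fun l hl p hp => by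
      by_cases e : p % 4 = 2 ∧ l < L
      · refine Or.inr fun l' p' d hw => ?_
        unfold u2
        rcases Wt_cases hw with h | h | h | h | h <;> split_ifs <;> omega
      · have := val_dirs (th := th) hu hd (fun _ _ => 0) l hl p hp
        refine Or.inl ⟨_, this.1, this.2, ?_⟩
        unfold u2
        rcases Wt_cases this.2 with h | h | h | h | h <;> split_ifs <;> omega) h
  refine ⟨fun l s => δ l (4 * s + 2) - 1, fun c hc => (rows_iff hS hu hd _ hc).1
    fun i hi => h2 _ hc (4 * i) (by omega) _ ?_⟩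
  obtain ⟨d1, d2, d3⟩ := sR_D (S := S) (fun l s => δ l (4 * s + 2) - 1) i
    (show c + 1 ≤ L from hc)
  refine ⟨d1, d2, fun l hl p hp hne => ?_⟩
  rw [show δ l p = dirs L (fun l s => δ l (4 * s + 2) - 1) l p from ?_]
  · exact d3 l hl p hp hne
  clear d1 d2 d3 hne
  simp only [dirs]
  rcases Wt_cases (h1 l hl p hp).2 with h | h | h | h | h
  iterate 4 split_ifs <;> omega
  have a := no_leaf h1 h2 (l := l) (t := p / 4) (by omega) (by omega) (Or.inl rfl)
  have b := no_leaf h1 h2 (l := l) (t := p / 4) (by omega) (by omega) (Or.inr rfl)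
  simp only [show 4 * (p / 4) + 2 = p by omega] at a b ⊢
  split_ifs <;> omega

end Pool.Agent.Work.MP_1e0b64_lc
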