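import Pool.Agent.Work.MP_1e0b64_lc.Grid2

-- merged part: Pool.Agent.Work.MP_1e0b64_lc.Load
section
/-!
The weights of a column machine, and the loads on the heavy edges.
-/

namespace Pool.Agent.Work.MP_1e0b64_lc

open SimpleGraph Finset

/-- The size of a token. -/
def tau (L : ℕ) (cu cd : ℕ → ℕ → ℕ) (c s : ℕ) : ℕ := 2 * (L + 1) + cu c s + cd c s

/-- One more than the capacity of a row edge. -/
def cap (S L : ℕ) (cu cd th : ℕ → ℕ → ℕ) (l i : ℕ) : ℕ :=
  (if 0 < i then (l - 1) * (L + 2) + 1 + tau L cu cd (l - 1) (i - 1) else 0) +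
  (if i < S then (l - 1) * (L + 2) + 1 + tau L cu cd (l - 1) i else 0) +
  if 0 < i ∧ i < S then min (th (l - 1) i) (2 * L + 1) else 0

/-- The bound on the congestion. -/
def Kv (L : ℕ) : ℕ := 4 * (L + 3) ^ 2

/-- The weights. -/
def Wt (S L : ℕ) (cu cd th : ℕ → ℕ → ℕ) (l p d : ℕ) : ℕ :=
  if p % 4 = 0 then (if d = 3 then Kv L + 1 - cap S L cu cd th l (p / 4) else 0)
  else if p % 4 = 1 then (if d = 2 then Kv L - (L + 2) else 0)
  else if p % 4 = 3 then (if d = 4 then Kv L - (L + 2) else 0)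
  else if l = L then (if d = 3 then Kv L else 0)
  else if d = 1 ∨ d = 5 then 1 else if d = 2 then L + 1 + cd l (p / 4)
  else if d = 4 then L + 1 + cu l (p / 4) else 0

/-- The accumulated cost of the strip `s` before the column `c`. -/
def acc (cu cd : ℕ → ℕ → ℕ) (o : ℕ → ℕ → ℕ) (c s : ℕ) : ℕ :=
  ∑ c' ∈ range c, if o c' s = 0 then cu c' s else cd c' s

/-- The choice `o` (zero for up) is allowed in a column with thresholds `th` in the state `A`. -/
def Ok (S : ℕ) (th A o : ℕ → ℕ) : Prop :=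
  o 0 ≠ 0 ∧ o (S - 1) = 0 ∧ ∀ i, 0 < i → i < S → o (i - 1) ≠ 0 → o i = 0 → A (i - 1) + A i < th i

/-- The directions given by the choices `o`. -/
def dirs (L : ℕ) (o : ℕ → ℕ → ℕ) (l p : ℕ) : ℕ :=
  if p % 4 = 0 then 3 else if p % 4 = 1 then 2 else if p % 4 = 3 then 4 else if l = L then 3
  else if o l (p / 4) = 0 then 1 else 5

/-- The descendants of the row node `(a, 4 i)`. -/
def sR (o : ℕ → ℕ → ℕ) (a i l p : ℕ) : Prop :=
  (l ≤ a ∧ p = 4 * i) ∨ l < a ∧ (p = 4 * i + 1 ∨ p + 1 = 4 * i ∨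
    (p = 4 * i + 2 ∧ o l i = 0) ∨ (p + 2 = 4 * i ∧ o l (i - 1) ≠ 0))

/-- The load of one item on a row edge. -/
def ld (L : ℕ) (cu cd : ℕ → ℕ → ℕ) (o : ℕ → ℕ → ℕ) (a s b l : ℕ) : ℕ :=
  if l + 1 < a then L + 2 + (if o l s = 0 then cu l s else cd l s)
  else if l + 1 = a then 1 + (if (o l s = 0 ↔ b = 0) then tau L cu cd l s else 0) else 0

variable {S L : ℕ} {cu cd th : ℕ → ℕ → ℕ}

theorem Kv_ge (L : ℕ) : 4 * L + 36 ≤ Kv L := by
  unfold Kv
  nlinarith

theorem cap_le (hu : ∀ c s, cu c s ≤ 1) (hd : ∀ c s, cd c s ≤ 1) {l : ℕ} (hl : l ≤ L) (i : ℕ) :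
    2 * cap S L cu cd th l i ≤ Kv L := by
  have h1 : (l - 1) * (L + 2) ≤ L * (L + 2) := Nat.mul_le_mul_right _ (by omega)
  have h2 : Kv L = 4 * (L * (L + 2)) + 16 * L + 36 := by
    unfold Kv
    ring
  have := hu (l - 1) i
  have := hd (l - 1) i
  have := hu (l - 1) (i - 1)
  have := hd (l - 1) (i - 1)
  unfold cap tau
  split_ifs <;> omega

theorem wok (hS : 0 < S) (hu : ∀ c s, cu c s ≤ 1) (hd : ∀ c s, cd c s ≤ 1) :
    Wok (4 * S + 1) L (Kv L) (Wt S L cu cd th) where
  hP := by omega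
  hK := by have := Kv_ge L; omega
  h0 l p := by simp [Wt]
  le l p d := by
    have := Kv_ge L
    have := hu l (p / 4)
    have := hd l (p / 4)
    unfold Wt cap
    split_ifs <;> omega
  inr l p d hp := by
    unfold Wt
    split_ifs <;> omega
  mono l p d p' d' h1 h2 := by
    have h : ∀ p d, 0 < Wt S L cu cd th l p d → (p % 4 = 0 ∧ d = 3) ∨ (p % 4 = 1 ∧ d = 2) ∨
        (p % 4 = 3 ∧ d = 4) ∨ (p % 4 = 2 ∧ 1 ≤ d ∧ d ≤ 5) := by
      intro p d
      unfold Wt
      split_ifs <;> omega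
    have := h p d h1
    have := h p' d' h2
    omega

theorem val_dirs (hu : ∀ c s, cu c s ≤ 1) (hd : ∀ c s, cd c s ≤ 1) (o : ℕ → ℕ → ℕ) :
    Val (4 * S + 1) L (Wt S L cu cd th) (dirs L o) := by
  intro l hl p _
  have := Kv_ge L
  have := cap_le (S := S) (th := th) hu hd hl (p / 4)
  unfold Wt dirs
  split_ifs <;> omega

open Classical in
theorem g_one (s : ℕ → ℕ → Prop) (o : ℕ → ℕ → ℕ) {l p : ℕ} (h : p % 4 ≠ 2 ∨ l = L) :
    g2 L (Wt S L cu cd th) s l p = if (s l p ↔ s (l + 1) (u2 L l p (dirs L o l p))) then 0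
      else Wt S L cu cd th l p (dirs L o l p) := by
  refine sum_eq_single _ (fun d _ hd => ?_) fun hd => absurd (mem_range.2 ?_) hd
  · rw [show Wt S L cu cd th l p d = 0 by
      unfold dirs at hd
      unfold Wt
      split_ifs at hd ⊢ <;> omega, ite_self]
  · unfold dirs
    split_ifs <;> omega

open Classical in
theorem g_item (s : ℕ → ℕ → Prop) {l : ℕ} (t : ℕ) (h : l ≠ L) :
    g2 L (Wt S L cu cd th) s l (4 * t + 2) =
      (if (s l (4 * t + 2) ↔ s (l + 1) (4 * t)) then 0 else 1) +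
      (if (s l (4 * t + 2) ↔ s (l + 1) (4 * t + 1)) then 0 else L + 1 + cd l t) +
      (if (s l (4 * t + 2) ↔ s (l + 1) (4 * t + 3)) then 0 else L + 1 + cu l t) +
      if (s l (4 * t + 2) ↔ s (l + 1) (4 * t + 4)) then 0 else 1 := by
  have e1 : (4 * t + 2) % 4 = 2 := by omega
  have e2 : (4 * t + 2) / 4 = t := by omega
  simp [g2, sum_range_succ, Wt, u2, e1, e2, h]

theorem sR_D (o : ℕ → ℕ → ℕ) {a : ℕ} (i : ℕ) (ha : a ≤ L) :
    D2 (4 * S + 1) L (dirs L o) a (4 * i) (sR o a i) := by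
  refine ⟨Or.inl ⟨le_rfl, rfl⟩, by unfold sR; omega, fun l hl p _ hne => ?_⟩
  have h0 : u2 L l p (dirs L o l p) % 4 = 0 := by
    unfold u2 dirs
    split_ifs <;> omega
  rw [show sR o a i (l + 1) (u2 L l p (dirs L o l p)) ↔ l < a ∧ u2 L l p (dirs L o l p) = 4 * i by
    unfold sR
    omega]
  unfold sR u2 dirs
  by_cases h1 : p = 4 * i + 2
  · rw [show p / 4 = i by omega]
    split_ifs <;> omega
  by_cases h2 : p + 2 = 4 * i
  · rw [show p / 4 = i - 1 by omega]
    split_ifs <;> omega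
  · split_ifs <;> omega

theorem sR_g (o : ℕ → ℕ → ℕ) {a : ℕ} (i : ℕ) (ha : a ≤ L) {l p : ℕ} (hl : l ≤ L)
    (hp : p < 4 * S + 1) : g2 L (Wt S L cu cd th) (sR o a i) l p =
      (if p = 4 * i then (if l = a then Wt S L cu cd th a (4 * i) 3 else 0) else 0) +
      (if p = 4 * i + 2 then ld L cu cd o a i 0 l else 0) +
      if p = 4 * (i - 1) + 2 then (if 0 < i then ld L cu cd o a (i - 1) 1 l else 0) else 0 := by
  by_cases h : p % 4 ≠ 2 ∨ l = L
  · have z : ∀ s b, p % 4 = 2 → ld L cu cd o a s b l = 0 := fun s b e => by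
      unfold ld
      rw [if_neg (by omega), if_neg (by omega)]
    rw [g_one _ o h, show (if p = 4 * i + 2 then ld L cu cd o a i 0 l else 0) = 0 by
      split_ifs; exacts [z _ _ (by omega), rfl], show (if p = 4 * (i - 1) + 2 then (if 0 < i then
        ld L cu cd o a (i - 1) 1 l else 0) else 0) = 0 by
      split_ifs; exacts [z _ _ (by omega), rfl, rfl]]
    by_cases e : l = a ∧ p = 4 * i
    · obtain ⟨rfl, rfl⟩ := e
      rw [if_neg, if_pos rfl, if_pos rfl, show dirs L o l (4 * i) = 3 by simp [dirs]]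
      · rfl
      · unfold sR
        omega
    · rw [if_pos ((sR_D o i ha).2.2 l hl p hp e)]
      split_ifs <;> omega
  · obtain ⟨t, rfl⟩ : ∃ t, p = 4 * t + 2 := ⟨p / 4, by omega⟩
    rw [g_item _ t (by omega), if_neg (show ¬ 4 * t + 2 = 4 * i by omega)]
    by_cases h1 : t = i
    · subst h1
      have e1 : sR o a t l (4 * t + 2) ↔ l < a ∧ o l t = 0 := by unfold sR; omega
      have e2 : sR o a t (l + 1) (4 * t) ↔ l < a := by unfold sR; omega
      have e3 : sR o a t (l + 1) (4 * t + 1) ↔ l + 1 < a := by unfold sR; omega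
      have e4 : ¬ sR o a t (l + 1) (4 * t + 3) := by unfold sR; omega
      have e5 : ¬ sR o a t (l + 1) (4 * t + 4) := by unfold sR; omega
      rw [if_pos rfl, show (if 4 * t + 2 = 4 * (t - 1) + 2 then (if 0 < t then
        ld L cu cd o a (t - 1) 1 l else 0) else 0) = 0 by split_ifs <;> omega]
      simp only [e1, e2, e3, e4, e5, ld, tau, iff_false, iff_true]
      clear * -
      by_cases O : o l t = 0 <;> simp only [O, and_true, and_false, if_true, if_false, false_iff,
        not_false_iff, iff_self] <;> split_ifs <;> omega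
    by_cases h2 : t + 1 = i
    · subst h2
      have e1 : sR o a (t + 1) l (4 * t + 2) ↔ l < a ∧ o l t ≠ 0 := by
        simp only [sR, Nat.add_sub_cancel]
        omega
      have e2 : ¬ sR o a (t + 1) (l + 1) (4 * t) := by unfold sR; omega
      have e3 : ¬ sR o a (t + 1) (l + 1) (4 * t + 1) := by unfold sR; omega
      have e4 : sR o a (t + 1) (l + 1) (4 * t + 3) ↔ l + 1 < a := by unfold sR; omega
      have e5 : sR o a (t + 1) (l + 1) (4 * t + 4) ↔ l < a := by unfold sR; omega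
      rw [if_neg (show ¬ 4 * t + 2 = 4 * (t + 1) + 2 by omega), Nat.add_sub_cancel, if_pos rfl,
        if_pos t.succ_pos]
      simp only [e1, e2, e3, e4, e5, ld, tau, iff_false, one_ne_zero]
      clear * -
      by_cases O : o l t = 0 <;> simp only [O, ne_eq, not_true, not_false_iff, and_true, and_false,
        if_true, if_false, false_iff, iff_self] <;> split_ifs <;> omega
    · have e : ∀ l p, 4 * t ≤ p → p ≤ 4 * t + 4 → ¬ sR o a i l p := by
        intro l p _ _
        unfold sR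
        omega
      simp only [e l (4 * t + 2) (by omega) (by omega), e _ (4 * t) (by omega) (by omega),
        e _ (4 * t + 1) (by omega) (by omega), e _ (4 * t + 3) (by omega) (by omega),
        e _ (4 * t + 4) (by omega) (by omega), iff_self, if_true]
      split_ifs <;> omega

theorem sum_ld (o : ℕ → ℕ → ℕ) (a s b : ℕ) {n : ℕ} (h : a < n) :
    ∑ l ∈ range n, ld L cu cd o (a + 1) s b l = a * (L + 2) + acc cu cd o a s + 1 +
      if (o a s = 0 ↔ b = 0) then tau L cu cd a s else 0 := by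
  obtain ⟨m, rfl⟩ := Nat.exists_eq_add_of_le (Nat.succ_le_of_lt h)
  rw [sum_range_add, sum_range_succ, sum_congr rfl (g := fun l => L + 2 +
    if o l s = 0 then cu l s else cd l s) (f := ld L cu cd o (a + 1) s b)
    fun l hl => if_pos (by simpa using hl),
    sum_eq_zero (s := range m) fun l _ => by
      unfold ld
      rw [if_neg (by omega), if_neg (by omega)]]
  simp [ld, acc, sum_add_distrib, add_assoc, mul_add]

theorem sR_w (o : ℕ → ℕ → ℕ) {a i : ℕ} (ha : a ≤ L) (hi : i ≤ S) :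
    w2 (4 * S + 1) L (Wt S L cu cd th) (sR o a i) = Kv L + 1 - cap S L cu cd th a i +
      (if i < S then ∑ l ∈ range (L + 1), ld L cu cd o a i 0 l else 0) +
      if 0 < i then ∑ l ∈ range (L + 1), ld L cu cd o a (i - 1) 1 l else 0 := by
  rw [w2, sum_congr rfl fun l hl => sum_congr rfl fun p hp =>
    sR_g o i ha (Nat.lt_succ_iff.1 (mem_range.1 hl)) (mem_range.1 hp)]
  simp only [sum_add_distrib, sum_ite_eq', mem_range, if_pos (show 4 * i < 4 * S + 1 by omega),
    if_pos (Nat.lt_succ_of_le ha), show 4 * i + 2 < 4 * S + 1 ↔ i < S by omega]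
  congr 1
  · congr 1
    · simp [Wt]
    · split_ifs <;> simp
  · by_cases h : 0 < i
    · simp only [if_pos h, if_pos (show 4 * (i - 1) + 2 < 4 * S + 1 by omega)]
    · simp [h]

theorem acc_le (hu : ∀ c s, cu c s ≤ 1) (hd : ∀ c s, cd c s ≤ 1) (o : ℕ → ℕ → ℕ) (c s : ℕ) :
    acc cu cd o c s ≤ c :=
  (sum_le_card_nsmul _ _ 1 fun c _ => by split_ifs; exacts [hu _ _, hd _ _]).trans (by simp)

theorem rows_iff (hS : 0 < S) (hu : ∀ c s, cu c s ≤ 1) (hd : ∀ c s, cd c s ≤ 1)
    (o : ℕ → ℕ → ℕ) {c : ℕ} (hc : c < L) :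
    (∀ i ≤ S, w2 (4 * S + 1) L (Wt S L cu cd th) (sR o (c + 1) i) ≤ Kv L) ↔
      Ok S (th c) (acc cu cd o c) (o c) := by
  have key : ∀ i ≤ S, w2 (4 * S + 1) L (Wt S L cu cd th) (sR o (c + 1) i) ≤ Kv L ↔
      ((0 < i → o c (i - 1) ≠ 0) → (i < S → o c i = 0) →
        0 < i ∧ i < S ∧ acc cu cd o c (i - 1) + acc cu cd o c i < th c i) := by
    intro i hi
    have h1 := cap_le (S := S) (th := th) hu hd (show c + 1 ≤ L from hc) i
    have := acc_le hu hd o c i
    have := acc_le hu hd o c (i - 1)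
    rw [sR_w (a := c + 1) o hc hi, sum_ld o c _ _ (by omega), sum_ld o c _ _ (by omega)]
    unfold cap tau at *
    simp only [Nat.add_sub_cancel, iff_true, iff_false, one_ne_zero] at *
    split_ifs at h1 ⊢ <;> omega
  refine ⟨fun h => ⟨fun e => ?_, by_contra fun e => ?_, fun i h1 h2 h3 h4 => ?_⟩,
    fun h i hi => (key i hi).2 fun h1 h2 => ?_⟩
  · simpa using ((key 0 hS.le).1 (h 0 hS.le) (by simp) fun _ => e).1
  · simpa using ((key S le_rfl).1 (h S le_rfl) (fun _ => e) (by simp)).2.1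
  · exact ((key i h2.le).1 (h i h2.le) (fun _ => h3) fun _ => h4).2.2
  · have a1 : 0 < i := Nat.pos_of_ne_zero fun e => h.1 (e ▸ h2 (e ▸ hS))
    have a2 : i < S := lt_of_le_of_ne hi fun e => h1 a1 (e ▸ h.2.1)
    exact ⟨a1, a2, h.2.2 i a1 a2 (h1 a1) (h2 a2)⟩

end Pool.Agent.Work.MP_1e0b64_lc
end

-- merged part: Pool.Agent.Work.MP_1e0b64_lc.Mach
section
/-!
The column machine of a chained constraint satisfaction problem.
-/

namespace Pool.Agent.Work.MP_1e0b64_lc

open Finset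

/-- A column: update flag, slot, two thresholds, slot, two thresholds. -/
abbrev Col : Type := ℕ × ℕ × ℕ × ℕ × ℕ × ℕ × ℕ

/-- Cost of going up. -/
def cU (c : Col) (s : ℕ) : ℕ := if c.1 = 1 ∧ s = 3 * c.2.1 + 1 then 1 else 0

/-- Cost of going down. -/
def cD (c : Col) (s : ℕ) : ℕ := if c.1 = 1 ∧ s = 3 * c.2.1 + 2 then 1 else 0

/-- Thresholds. -/
def tH (c : Col) (i : ℕ) : ℕ :=
  max (max (if i = 3 * c.2.1 + 1 then c.2.2.1 else 0) (if i = 3 * c.2.1 + 3 then c.2.2.2.1 else 0))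
    (max (if i = 3 * c.2.2.2.2.1 + 1 then c.2.2.2.2.2.1 else 0)
      (if i = 3 * c.2.2.2.2.1 + 3 then c.2.2.2.2.2.2 else 0))

/-- The default column. -/
def c0 : Col := (0, 0, 0, 0, 0, 0, 0)

/-- Runs of the column machine. -/
def Reach (S : ℕ) : List Col → (ℕ → ℕ) → (ℕ → ℕ) → Prop
  | [], A, B => B = A
  | c :: l, A, B =>
    ∃ o, Ok S (tH c) A o ∧ Reach S l (fun s => A s + if o s = 0 then cU c s else cD c s) B

/-- Number of updates of the slot `g` in the first `t` phases. -/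
def nu (g t : ℕ) : ℕ := (t + 1 - g % 2) / 2

/-- Forbidden pairs. -/
def bad (n : ℕ) (ok : ℕ → ℕ → ℕ → ℕ → ℕ → ℕ → Bool) (t j a g b : ℕ) : Bool :=
  decide (n = 0) || if g % 2 = t % 2 then !ok t j a 0 (g / 2) b
    else decide (t ≠ 0) && !ok t j a 1 (g / 2) b

/-- Update columns. -/
def updL (n I m e : ℕ) : List Col :=
  (List.range m).flatMap fun j => List.replicate n (1, 2 * j + e, I, I, 2 * j + e, 0, 0)

/-- Check columns. -/
def chkL (n r k : ℕ) (ok : ℕ → ℕ → ℕ → ℕ → ℕ → ℕ → Bool) (t : ℕ) : List Col :=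
  (List.range k).flatMap fun j => (List.range (2 * k)).flatMap fun g =>
    (List.range (n * r + 1)).flatMap fun a => (List.range (n * r + 1)).flatMap fun b =>
      if bad n ok t j (a % n) g (b % n) = true then
        [(0, 2 * j + t % 2, a, n * nu (2 * j + t % 2) (t + 1) - a, g, b, n * nu g (t + 1) - b)]
      else []

/-- The columns of the first `t` phases. -/
def cols (n r k : ℕ) (ok : ℕ → ℕ → ℕ → ℕ → ℕ → ℕ → Bool) (t : ℕ) : List Col :=
  (List.range t).flatMap fun t => updL n (n * r + 1) k (t % 2) ++ chkL n r k ok t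

/-- The constraints at the layer `t`. -/
def Good (n k : ℕ) (ok : ℕ → ℕ → ℕ → ℕ → ℕ → ℕ → Bool) (x : ℕ → ℕ → ℕ) (t : ℕ) : Prop :=
  ∀ j < k, x t j < n ∧ ∀ j' < k, ok t j (x t j) 0 j' (x t j') = true ∧
    (t ≠ 0 → ok t j (x t j) 1 j' (x (t - 1) j') = true)

variable {S : ℕ}

theorem reach_append (l l' : List Col) (A C : ℕ → ℕ) :
    Reach S (l ++ l') A C ↔ ∃ B, Reach S l A B ∧ Reach S l' B C := by
  induction l generalizing A with
  | nil => simp [Reach]
  | cons c l ih =>
    simp only [List.cons_append, Reach, ih]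
    exact ⟨fun ⟨o, h, B, h'⟩ => ⟨B, ⟨o, h, h'.1⟩, h'.2⟩, fun ⟨B, ⟨o, h, h'⟩, h''⟩ => ⟨o, h, B, h', h''⟩⟩

theorem run_iff (l : List Col) (A : ℕ → ℕ) : (∃ B, Reach S l A B) ↔ ∃ o : ℕ → ℕ → ℕ,
    ∀ c < l.length, Ok S (tH (l.getD c c0)) (fun s => A s +
      acc (fun c => cU (l.getD c c0)) (fun c => cD (l.getD c c0)) o c s) (o c) := by
  induction l generalizing A with
  | nil => simp [Reach]
  | cons c l ih =>
    simp only [Reach, exists_comm (α := ℕ → ℕ) (β := ℕ → ℕ), exists_and_left, ih, List.length_cons,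
      Nat.forall_lt_succ_left, acc, sum_range_succ', List.getD_cons_succ, List.getD_cons_zero,
      range_zero, sum_empty, add_zero]
    refine ⟨fun ⟨o, h, o', h'⟩ => ⟨fun c => c.casesOn o o', h, fun c hc => ?_⟩,
      fun ⟨o, h, h'⟩ => ⟨o 0, h, fun c => o (c + 1), fun c hc => ?_⟩⟩ <;>
    simpa only [add_assoc, add_comm, add_left_comm, Nat.rec_zero] using h' c hc

theorem ok_sub {th A : ℕ → ℕ} {i : ℕ} (h1 : 0 < i) (h2 : i < S) (h : A (i - 1) + A i < th i) :
    Ok S th A fun s => i - s :=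
  ⟨h1.ne', show i - (S - 1) = 0 by omega, fun j _ _ (_ : i - (j - 1) ≠ 0) (_ : i - j = 0) => by
    rwa [show j = i by omega]⟩

theorem ok_iff (th A : ℕ → ℕ) (hS : 0 < S) :
    (∃ o, Ok S th A o) ↔ ∃ i, 0 < i ∧ i < S ∧ A (i - 1) + A i < th i := by
  refine ⟨fun ⟨o, h1, h2, h3⟩ => ?_, fun ⟨i, h1, h2, h3⟩ => ⟨_, ok_sub h1 h2 h3⟩⟩
  have h : ∃ i, o i = 0 := ⟨_, h2⟩
  have a1 : 0 < Nat.find h := Nat.pos_of_ne_zero fun e => h1 (by simpa [e] using Nat.find_spec h)
  have a2 := Nat.find_min' h h2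
  exact ⟨_, a1, by omega, h3 _ a1 (by omega) (Nat.find_min h (by omega)) (Nat.find_spec h)⟩

theorem reach_chk {l : List Col} (h : ∀ c ∈ l, c.1 = 0) (A B : ℕ → ℕ) :
    Reach S l A B ↔ B = A ∧ ∀ c ∈ l, ∃ o, Ok S (tH c) A o := by
  induction l with
  | nil => simp [Reach]
  | cons c l ih =>
    have h0 := h c (by simp)
    simp only [Reach, cU, cD, h0, zero_ne_one, false_and, if_false, ite_self, add_zero,
      ih fun c hc => h c (by simp [hc]), List.forall_mem_cons, exists_and_right]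
    tauto

theorem upd_sound {g I : ℕ} (hg : 3 * g + 2 < S) (n : ℕ) (A B : ℕ → ℕ)
    (h : Reach S (List.replicate n (1, g, I, I, g, 0, 0)) A B) :
    (∀ s, s ≠ 3 * g + 1 → s ≠ 3 * g + 2 → B s = A s) ∧ B (3 * g + 1) ≤ A (3 * g + 1) + n ∧
      A (3 * g + 1) + A (3 * g + 2) + n ≤ B (3 * g + 1) + B (3 * g + 2) := by
  induction n generalizing A with
  | zero =>
    obtain rfl : B = A := h
    simp
  | succ n ih =>
    obtain ⟨o, h1, h2⟩ := h
    obtain ⟨a1, a2, a3⟩ := ih _ h2
    have := h1.2.2 (3 * g + 2) (by omega) hg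
    simp [cU, cD, tH] at a1 a2 a3 this
    refine ⟨fun s s1 s2 => by simpa [s1, s2] using a1 s s1 s2, ?_, ?_⟩ <;>
      split_ifs at a2 a3 <;> omega

theorem upd_complete {g I : ℕ} (hg : 3 * g + 3 < S) (n δ : ℕ) (A : ℕ → ℕ) (hδ : δ ≤ n)
    (h1 : A (3 * g) = 0) (h2 : A (3 * g + 3) = 0) (h3 : A (3 * g + 1) + A (3 * g + 2) + n ≤ I) :
    ∃ B, Reach S (List.replicate n (1, g, I, I, g, 0, 0)) A B ∧
      (∀ s, s ≠ 3 * g + 1 → s ≠ 3 * g + 2 → B s = A s) ∧ B (3 * g + 1) = A (3 * g + 1) + δ ∧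
      B (3 * g + 2) = A (3 * g + 2) + (n - δ) := by
  induction n generalizing A δ with
  | zero => exact ⟨A, rfl, fun _ _ _ => rfl, by omega, by omega⟩
  | succ n ih =>
    obtain ⟨i, hi, hd⟩ : ∃ i, (i = 3 * g + 1 ∨ i = 3 * g + 3) ∧ (i = 3 * g + 1 ↔ δ ≠ 0) := by
      by_cases e : δ = 0
      · exact ⟨3 * g + 3, by omega⟩
      · exact ⟨3 * g + 1, by omega⟩
    obtain ⟨B, b1, b2, b3, b4⟩ := ih (δ - 1) (fun s => A s + if i - s = 0
      then cU (1, g, I, I, g, 0, 0) s else cD (1, g, I, I, g, 0, 0) s) (by omega)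
      (by simp [cU, cD, h1]) (by simp [cU, cD, h2]) (by
        simp only [cU, cD, true_and]
        split_ifs <;> omega)
    refine ⟨B, ⟨fun s => i - s, ok_sub (by omega) (by omega) ?_, b1⟩,
      fun s s1 s2 => by simpa [cU, cD, s1, s2] using b2 s s1 s2, ?_, ?_⟩
    · rcases hi with rfl | rfl
      · simp [tH, h1]
        omega
      · simp [tH, h2]
        omega
    · simp only [cU, cD, true_and] at b3
      split_ifs at b3 <;> omega
    · simp only [cU, cD, true_and] at b4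
      split_ifs at b4 <;> omega

theorem updL_succ (n I m e : ℕ) : updL n I (m + 1) e =
    updL n I m e ++ List.replicate n (1, 2 * m + e, I, I, 2 * m + e, 0, 0) := by
  simp [updL, List.range_succ]

theorem updL_sound {n I e m : ℕ} (he : e < 2) (hm : 6 * m < S) (A B : ℕ → ℕ)
    (h : Reach S (updL n I m e) A B) (g : ℕ) :
    if g % 2 = e ∧ g / 2 < m then B (3 * g + 1) ≤ A (3 * g + 1) + n ∧
      A (3 * g + 1) + A (3 * g + 2) + n ≤ B (3 * g + 1) + B (3 * g + 2)
    else B (3 * g + 1) = A (3 * g + 1) ∧ B (3 * g + 2) = A (3 * g + 2) := by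
  induction m generalizing B with
  | zero =>
    obtain rfl : B = A := h
    simp
  | succ m ih =>
    rw [updL_succ, reach_append] at h
    obtain ⟨C, h1, h2⟩ := h
    have := ih (by omega) C h1
    obtain ⟨a1, a2, a3⟩ := upd_sound (by omega) n C B h2
    by_cases hg : g = 2 * m + e
    · subst hg
      split_ifs at this ⊢ <;> omega
    · have := a1 (3 * g + 1) (by omega) (by omega)
      have := a1 (3 * g + 2) (by omega) (by omega)
      split_ifs at * <;> omega

theorem updL_complete {n I e m : ℕ} (he : e < 2) (hm : 6 * m < S) (A δ : ℕ → ℕ)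
    (hδ : ∀ j, δ j ≤ n) (h1 : ∀ g, A (3 * g) = 0)
    (h3 : ∀ g < 2 * m, A (3 * g + 1) + A (3 * g + 2) + n ≤ I) :
    ∃ B, Reach S (updL n I m e) A B ∧ (∀ g, B (3 * g) = 0) ∧ ∀ g, if g % 2 = e ∧ g / 2 < m then
      B (3 * g + 1) = A (3 * g + 1) + δ (g / 2) ∧ B (3 * g + 2) = A (3 * g + 2) + (n - δ (g / 2))
    else B (3 * g + 1) = A (3 * g + 1) ∧ B (3 * g + 2) = A (3 * g + 2) := by
  induction m with
  | zero => exact ⟨A, rfl, h1, by simp⟩
  | succ m ih =>
    obtain ⟨C, c1, c2, c3⟩ := ih (by omega) fun g hg => h3 g (by omega)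
    have c4 := c3 (2 * m + e)
    rw [if_neg (by omega)] at c4
    obtain ⟨B, b1, b2, b3, b4⟩ := upd_complete (S := S) (g := 2 * m + e) (I := I) (by omega) n
      (δ m) C (hδ m) (c2 _) (c2 (2 * m + e + 1)) (by rw [c4.1, c4.2]; exact h3 _ (by omega))
    refine ⟨B, by rw [updL_succ, reach_append]; exact ⟨C, c1, b1⟩,
      fun g => (b2 _ (by omega) (by omega)).trans (c2 g), fun g => ?_⟩
    by_cases hg : g = 2 * m + e
    · subst hg
      rw [if_pos (by omega), show (2 * m + e) / 2 = m by omega]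
      omega
    · have := c3 g
      rw [b2 (3 * g + 1) (by omega) (by omega), b2 (3 * g + 2) (by omega) (by omega)]
      split_ifs at * <;> omega

variable {n r k : ℕ} {ok : ℕ → ℕ → ℕ → ℕ → ℕ → ℕ → Bool}

theorem chkL_iff (t : ℕ) (A B : ℕ → ℕ) : Reach (6 * k + 1) (chkL n r k ok t) A B ↔ B = A ∧
    ∀ j < k, ∀ g < 2 * k, ∀ a ≤ n * r, ∀ b ≤ n * r, bad n ok t j (a % n) g (b % n) = true →
      ∃ i, 0 < i ∧ i < 6 * k + 1 ∧ A (i - 1) + A i < tH (0, 2 * j + t % 2, a,
        n * nu (2 * j + t % 2) (t + 1) - a, g, b, n * nu g (t + 1) - b) i := by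
  rw [reach_chk] <;>
  simp only [chkL, List.forall_mem_flatMap, List.mem_range, Nat.lt_succ_iff, List.mem_ite_nil_right,
    List.mem_singleton, and_imp, forall_comm (β := _ = true), forall_eq, ok_iff _ _ (Nat.succ_pos _),
    implies_true]

theorem cols_succ (t : ℕ) : cols n r k ok (t + 1) =
    cols n r k ok t ++ (updL n (n * r + 1) k (t % 2) ++ chkL n r k ok t) := by
  simp [cols, List.range_succ]

theorem nu_succ (n g t : ℕ) :
    n * nu g (t + 1) = n * nu g t + if g % 2 = t % 2 then n else 0 := by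
  split_ifs
  · rw [show nu g (t + 1) = nu g t + 1 by unfold nu; omega, Nat.mul_succ]
  · rw [show nu g (t + 1) = nu g t by unfold nu; omega, add_zero]

theorem cols_sound {t : ℕ} (ht : t ≤ r) (A : ℕ → ℕ)
    (h : Reach (6 * k + 1) (cols n r k ok t) (fun _ => 0) A) :
    (∀ g < 2 * k, A (3 * g + 1) ≤ n * t ∧ n * nu g t ≤ A (3 * g + 1) + A (3 * g + 2)) ∧
    ∃ x, (∀ t' < t, Good n k ok x t') ∧
      ∀ g < 2 * k, g % 2 ≠ t % 2 → t ≠ 0 → x (t - 1) (g / 2) = A (3 * g + 1) % n := by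
  induction t generalizing A with
  | zero =>
    obtain rfl : A = fun _ => 0 := h
    refine ⟨fun g _ => ⟨by simp, by rw [show nu g 0 = 0 by unfold nu; omega]; simp⟩, by simp⟩
  | succ t ih =>
    rw [cols_succ, reach_append] at h
    obtain ⟨C, h1, h2⟩ := h
    rw [reach_append] at h2
    obtain ⟨B, h2, h3⟩ := h2
    obtain ⟨rfl, h3⟩ := (chkL_iff t B A).1 h3
    obtain ⟨i1, x, i2, i3⟩ := ih (by omega) C h1
    have hu := updL_sound (Nat.mod_lt t two_pos) (Nat.lt_succ_self _) C A h2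
    have j1 : ∀ g < 2 * k, A (3 * g + 1) ≤ n * (t + 1) ∧
        n * nu g (t + 1) ≤ A (3 * g + 1) + A (3 * g + 2) := by
      intro g hg
      have := i1 g hg
      have := hu g
      rw [nu_succ, Nat.mul_succ]
      split_ifs at * <;> omega
    have hb : ∀ j < k, ∀ g < 2 * k,
        bad n ok t j (A (3 * (2 * j + t % 2) + 1) % n) g (A (3 * g + 1) % n) = false := by
      intro j hj g hg
      have a1 := j1 (2 * j + t % 2) (by omega)
      have a2 := j1 g hg
      have := Nat.mul_le_mul_left n ht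
      by_contra e
      obtain ⟨i, -, -, hi⟩ := h3 j hj g hg _ (a1.1.trans this) _ (a2.1.trans this)
        (by simpa using e)
      simp only [tH, lt_max_iff] at hi
      rcases hi with (hi | hi) | hi | hi <;> split_ifs at hi with e <;>
        first | omega | (subst e; simp only [Nat.add_succ_sub_one] at hi; omega)
    refine ⟨j1, Function.update x t fun j => A (3 * (2 * j + t % 2) + 1) % n, fun t' ht' => ?_,
      fun g _ h1 _ => by simp [show 2 * (g / 2) + t % 2 = g by omega]⟩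
    rcases Nat.lt_succ_iff_lt_or_eq.1 ht' with h | rfl
    · simpa only [Good, Function.update_of_ne h.ne,
        Function.update_of_ne (show t' - 1 ≠ t by omega)] using i2 t' h
    intro j hj
    have hn : n ≠ 0 := fun e => by simpa [bad, e] using hb j hj 0 (by omega)
    refine ⟨by simpa using Nat.mod_lt _ (by omega), fun j' hj' => ⟨?_, fun h0 => ?_⟩⟩
    · simpa [bad, hn, show (2 * j' + t' % 2) / 2 = j' by omega] using
        hb j hj (2 * j' + t' % 2) (by omega)
    · have b1 := hb j hj (2 * j' + (t' + 1) % 2) (by omega)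
      have b2 := i3 (2 * j' + (t' + 1) % 2) (by omega) (by omega) h0
      have b3 := hu (2 * j' + (t' + 1) % 2)
      rw [if_neg (by omega)] at b3
      rw [b3.1, ← b2, bad, if_neg (by omega)] at b1
      simpa [hn, h0, show (2 * j' + (t' + 1) % 2) / 2 = j' by omega,
        Function.update_of_ne (show t' - 1 ≠ t' by omega)] using b1

theorem cols_complete {x : ℕ → ℕ → ℕ} (hx : ∀ t < r, Good n k ok x t) {t : ℕ} (ht : t ≤ r) :
    ∃ A, Reach (6 * k + 1) (cols n r k ok t) (fun _ => 0) A ∧ (∀ g, A (3 * g) = 0) ∧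
      ∀ g < 2 * k, A (3 * g + 1) + A (3 * g + 2) = n * nu g t ∧
        (g % 2 ≠ t % 2 → t ≠ 0 → x (t - 1) (g / 2) = A (3 * g + 1) % n) := by
  induction t with
  | zero =>
    exact ⟨_, rfl, fun _ => rfl, fun g _ => ⟨by rw [show nu g 0 = 0 by unfold nu; omega]; simp,
      by simp⟩⟩
  | succ t ih =>
    obtain ⟨C, c1, c2, c3⟩ := ih (by omega)
    have hle : ∀ g, n * nu g t + n ≤ n * r := fun g =>
      Nat.mul_le_mul_left n (show nu g t + 1 ≤ r by unfold nu; omega)
    obtain ⟨B, b1, b2, b3⟩ := updL_complete (S := 6 * k + 1) (I := n * r + 1)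
      (Nat.mod_lt t two_pos) (Nat.lt_succ_self _) C
      (fun j => min n ((x t j + (n - C (3 * (2 * j + t % 2) + 1) % n)) % n))
      (fun _ => min_le_left _ _) c2 fun g hg => by
        rw [(c3 g hg).1]
        exact (hle g).trans (Nat.le_succ _)
    have j1 : ∀ g < 2 * k, B (3 * g + 1) + B (3 * g + 2) = n * nu g (t + 1) := by
      intro g hg
      have := (c3 g hg).1
      have := b3 g
      rw [nu_succ]
      split_ifs at * <;> omega
    have j2 : ∀ g < 2 * k, g % 2 = t % 2 → x t (g / 2) = B (3 * g + 1) % n := by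
      intro g hg e
      have h1 := b3 g
      have h2 := (hx t ht (g / 2) (by omega)).1
      have h3 := Nat.mod_lt (C (3 * g + 1)) (show 0 < n by omega)
      rw [if_pos (by omega), show 2 * (g / 2) + t % 2 = g by omega,
        min_eq_right (Nat.mod_lt _ (by omega)).le] at h1
      rw [h1.1, Nat.add_mod_mod, ← Nat.mod_add_mod, show C (3 * g + 1) % n + (x t (g / 2) +
        (n - C (3 * g + 1) % n)) = x t (g / 2) + n by omega, Nat.add_mod_right,
        Nat.mod_eq_of_lt h2]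
    refine ⟨B, ?_, b2, fun g hg => ⟨j1 g hg, fun h _ => j2 g hg (by omega)⟩⟩
    rw [cols_succ, reach_append]
    refine ⟨C, c1, (reach_append _ _ _ _).2 ⟨B, b1, (chkL_iff t B B).2 ⟨rfl, ?_⟩⟩⟩
    intro j hj g hg a _ b _ hb
    have key : ∀ g < 2 * k, ∀ a, B (3 * g + 1) ≠ a → B (3 * g + 1 - 1) + B (3 * g + 1) < a ∨
        B (3 * g + 3 - 1) + B (3 * g + 3) < n * nu g (t + 1) - a := by
      intro g hg a h
      have := j1 g hg
      have := b2 g
      have : B (3 * g + 3) = 0 := b2 (g + 1)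
      simp only [Nat.add_succ_sub_one, add_zero]
      omega
    by_cases e1 : B (3 * (2 * j + t % 2) + 1) = a
    · by_cases e2 : B (3 * g + 1) = b
      · have h1 := j2 (2 * j + t % 2) (by omega) (by omega)
        rw [show (2 * j + t % 2) / 2 = j by omega, e1] at h1
        obtain ⟨h2, h3⟩ := hx t ht j hj
        have h4 := h3 (g / 2) (by omega)
        rw [← h1, ← e2, bad, decide_eq_false (by omega), Bool.false_or] at hb
        split_ifs at hb with e
        · simp [← j2 g hg e, h4.1] at hb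
        · have h5 := b3 g
          rw [if_neg (by omega)] at h5
          by_cases h0 : t = 0
          · simp [h0] at hb
          · simp [h5.1, ← (c3 g hg).2 e h0, h4.2 h0] at hb
      · rcases key g hg b e2 with h | h
        · exact ⟨3 * g + 1, by omega, by omega, h.trans_le (by simp [tH])⟩
        · exact ⟨3 * g + 3, by omega, by omega, h.trans_le (by simp [tH])⟩
    · rcases key _ (by omega) a e1 with h | h
      · exact ⟨3 * (2 * j + t % 2) + 1, by omega, by omega, h.trans_le (by simp [tH])⟩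
      · exact ⟨3 * (2 * j + t % 2) + 3, by omega, by omega, h.trans_le (by simp [tH])⟩

theorem cols_iff : (∃ A, Reach (6 * k + 1) (cols n r k ok r) (fun _ => 0) A) ↔
    ∃ x, ∀ t < r, Good n k ok x t :=
  ⟨fun ⟨A, h⟩ => (cols_sound le_rfl A h).2.imp fun _ h => h.1,
    fun ⟨_, h⟩ => (cols_complete h le_rfl).imp fun _ h => h.1⟩

end Pool.Agent.Work.MP_1e0b64_lc
end
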