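import Pool.Agent.Work.MP_1e0b64_lc.Load2
import Pool.Agent.Work.MP_1e0b64_lc.Mach
import Pool.Agent.Lib.Cx.Bits
import Pool.Agent.Lib.Cx.LogTM

-- merged part: Pool.Agent.Work.MP_1e0b64_lc.Eff
section
/-!
The reduction from chained constraint satisfaction problems, and its computability.
-/

namespace Pool.Agent.Work.MP_1e0b64_lc

open Pool.Agent.Lib.Cx

/-- The weights of a list of columns. -/
def WL (k : ℕ) (l : List Col) : ℕ → ℕ → ℕ → ℕ :=
  Wt (6 * k + 1) l.length (fun c => cU (l.getD c c0)) (fun c => cD (l.getD c c0))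
    fun c => tH (l.getD c c0)

/-- The graph of a list of columns. -/
def GrL (k : ℕ) (l : List Col) := Gr2 (4 * (6 * k + 1) + 1) l.length (Kv l.length) (WL k l)

theorem gr_bip (P Q K : ℕ) (W : ℕ → ℕ → ℕ) : (Gr P Q K W).IsBipartite := by
  refine ⟨.mk (fun z => if z.val % (6 * K) = 0 then 0 else 1) fun {u v} h => ?_⟩
  rcases h with ⟨h, e | ⟨-, e⟩⟩ | ⟨h, e | ⟨-, e⟩⟩ <;> simp [h, e]

variable {α : Type} [Obj α]

@[fun_prop] theorem ls_Kv {L : α → ℕ} (hL : LS L) : LS fun a => Kv (L a) := by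
  unfold Kv
  fun_prop

@[fun_prop] theorem ls_pre {n : α → ℕ} {x : α → List Bool} (hn : LS n) (hx : LS x) :
    LS fun a => pre (n a) (x a) := by
  unfold pre
  fun_prop

@[fun_prop] theorem ls_cU {c : α → Col} {s : α → ℕ} (hc : LS c) (hs : LS s) :
    LS fun a => cU (c a) (s a) := by
  unfold cU
  fun_prop

@[fun_prop] theorem ls_cD {c : α → Col} {s : α → ℕ} (hc : LS c) (hs : LS s) :
    LS fun a => cD (c a) (s a) := by
  unfold cD
  fun_prop

@[fun_prop] theorem ls_tH {c : α → Col} {s : α → ℕ} (hc : LS c) (hs : LS s) :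
    LS fun a => tH (c a) (s a) := by
  unfold tH
  fun_prop

@[fun_prop] theorem ls_WL {k a b d : α → ℕ} {l : α → List Col} (hk : LS k) (hl : LS l) (ha : LS a)
    (hb : LS b) (hd : LS d) : LS fun x => WL (k x) (l x) (a x) (b x) (d x) := by
  unfold WL Wt cap tau
  fun_prop

theorem ls_encode {N K : α → ℕ} (p : α → ℕ → ℕ → Prop) (G : ∀ a, SimpleGraph (Fin (N a)))
    (h : ∀ a i j, (G a).Adj i j ↔ p a i j ∨ p a j i) (hN : LS N) (hK : LS K)
    (hp : LSP fun q : (α × ℕ) × ℕ => p q.1.1 q.1.2 q.2) : LS fun a => encode (G a) (K a) := by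
  classical
  have : LS fun a => pre (K a) (pre (N a) ((List.range (N a)).flatMap fun i =>
      (List.range (N a)).map fun j => decide (p a i j ∨ p a j i))) :=
    ls_pre hK (ls_pre hN (LS.flatMap hN.range (LS.map (by fun_prop) (LS.decide_or hp.out
      (LS.comp _ (fun q : (α × ℕ) × ℕ => ((q.1.1, q.2), q.1.2)) hp.out (by fun_prop))))))
  refine this.congr fun a => ?_
  simp only [encode, h, ← finRange_flatMap, ← finRange_map]

theorem ls_GrL {k : α → ℕ} {l : α → List Col} (hk : LS k) (hl : LS l) :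
    LS fun a => encode (GrL (k a) (l a)) (Kv (l a).length) := by
  classical
  refine ls_encode (fun a => rel (4 * (6 * k a + 1) + 1)
    (((l a).length + 1) * (4 * (6 * k a + 1) + 1)) (Kv (l a).length) fun z d =>
      WL (k a) (l a) (z / (4 * (6 * k a + 1) + 1)) (z % (4 * (6 * k a + 1) + 1)) d) _
    (fun _ _ _ => Iff.rfl) (by fun_prop) (by fun_prop) (.of_decide (LS.decide_and (by fun_prop)
      (LS.decide_or (by fun_prop) (LS.decide_and (by fun_prop) ?_))))
  unfold upq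
  fun_prop

theorem csp_red {n r k : α → ℕ} {ok : α → ℕ → ℕ → ℕ → ℕ → ℕ → ℕ → Bool} (hn : LS n) (hr : LS r)
    (hk : LS k) (hok : LS fun p : α × ℕ × ℕ × ℕ × ℕ × ℕ × ℕ =>
      ok p.1 p.2.1 p.2.2.1 p.2.2.2.1 p.2.2.2.2.1 p.2.2.2.2.2.1 p.2.2.2.2.2.2) :
    ∃ R : α → List Bool, LS R ∧ ∀ a, ∃ (N : ℕ) (H : SimpleGraph (Fin N)) (K : ℕ),
      R a = encode H K ∧ H.Connected ∧ H.IsBipartite ∧ IsPlanar H ∧
      PathwidthLE H (48 * k a + 10) ∧
      (stc H ≤ K ↔ ∃ x, ∀ t < r a, Good (n a) (k a) (ok a) x t) := by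
  have ho : ∀ {β : Type} [Obj β] {a : β → α} {t j u e i b : β → ℕ}, LS a → LS t → LS j → LS u →
      LS e → LS i → LS b → LS fun x => ok (a x) (t x) (j x) (u x) (e x) (i x) (b x) :=
    fun ha ht hj hu he hi hb => LS.comp _ _ hok (ha.pair (ht.pair (hj.pair (hu.pair (he.pair
      (hi.pair hb))))))
  have hb : LS fun p : ((((α × ℕ) × ℕ) × ℕ) × ℕ) × ℕ => bad (n p.1.1.1.1.1) (ok p.1.1.1.1.1)
      p.1.1.1.1.2 p.1.1.1.2 (p.1.2 % n p.1.1.1.1.1) p.1.1.2 (p.2 % n p.1.1.1.1.1) := by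
    unfold bad
    refine LS.or (by fun_prop) (LS.ite (by fun_prop) (LS.not ?_) (LS.and (by fun_prop)
      (LS.not ?_))) <;> apply ho <;> fun_prop
  have hc : LS fun a => cols (n a) (r a) (k a) (ok a) (r a) := by
    unfold cols updL chkL nu
    refine LS.flatMap (by fun_prop) (LS.append (by fun_prop) (LS.flatMap (by fun_prop) (LS.flatMap
      (by fun_prop) (LS.flatMap (by fun_prop) (LS.flatMap (by fun_prop)
        (LS.ite (LS.decide_eq_true hb) (by fun_prop) (by fun_prop)))))))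
  refine ⟨_, ls_GrL hk hc, fun a => ⟨_, _, _, rfl, ?_⟩⟩
  set l := cols (n a) (r a) (k a) (ok a) (r a)
  have hu : ∀ c s, cU (l.getD c c0) s ≤ 1 := fun c s => by unfold cU; split_ifs <;> simp
  have hd : ∀ c s, cD (l.getD c c0) s ≤ 1 := fun c s => by unfold cD; split_ifs <;> simp
  have hw := wok (L := l.length) (th := fun c => tH (l.getD c c0)) (Nat.succ_pos (6 * k a)) hu hd
  refine ⟨hw.connected (val_dirs hu hd fun _ _ => 0), gr_bip _ _ _ _, hw.planar, ?_, ?_⟩
  · rw [show 48 * k a + 10 = 2 * (4 * (6 * k a + 1) + 1) by omega]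
    exact hw.pathwidth
  · rw [← cols_iff, run_iff]
    simp only [zero_add]
    exact ⟨load_sound (Nat.succ_pos _) hu hd, fun ⟨o, h⟩ => load_complete (Nat.succ_pos _) hu hd o h⟩

end Pool.Agent.Work.MP_1e0b64_lc
end

-- merged part: Pool.Agent.Work.MP_1e0b64_lc.Sim
section
/-!
Simulation of a nondeterministic machine by a chained constraint satisfaction problem.
-/

namespace Pool.Agent.Work.MP_1e0b64_lc

open Pool.Agent.Lib.Cx

/-- The block of the tape stored in a value. -/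
def vB (a i : ℕ) : Bool := a.unpair.1.unpair.1.testBit i

/-- The state stored in a value. -/
def vq (M : NTM) (a : ℕ) : Fin M.a := ⟨a.unpair.1.unpair.2 % M.a, Nat.mod_lt _ M.start.pos⟩

/-- The input head stored in a value. -/
def vp (a : ℕ) : ℕ := a.unpair.2.unpair.1

/-- The work head stored in a value. -/
def vh (a : ℕ) : ℕ := a.unpair.2.unpair.2

/-- The moves. -/
def mv (i : ℕ) : Move := if i = 0 then .left else if i = 1 then .stay else .right

/-- The constraints: `w` is the block length, `s` the number of blocks. -/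
def okP (M : NTM) (x : List Bool) (w s T t j a e j' b : ℕ) : Prop :=
  if e = 0 then vq M a = vq M b ∧ vp a = vp b ∧ vh a = vh b ∧ vh a < s * w ∧
    (t = 0 → vq M a = M.start ∧ vp a = 0 ∧ vh a = 0 ∧ ∀ i < w, vB a i = false) ∧
    (t = T → M.acc (vq M a) = true)
  else j = j' → M.acc (vq M b) = true ∨ (∀ i < w, j * w + i ≠ vh b → vB a i = vB b i) ∧
    (vh b / w = j → ∃ m < 3, ∃ m' < 3, M.δ (vq M b) (inputSym x (vp b)) (vB b (vh b % w)) (vq M a)
      (mv m) (vB a (vh b % w)) (mv m') = true ∧ vp a = min (vp b + m - 1) (x.length + 1) ∧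
      vh a = vh b + m' - 1)

theorem mv_apply {m : ℕ} (h : m < 3) (a : ℕ) : (mv m).apply a = a + m - 1 := by
  interval_cases m <;> rfl

theorem mv_surj (m : Move) : ∃ i < 3, mv i = m := by
  cases m
  exacts [⟨0, by omega, rfl⟩, ⟨1, by omega, rfl⟩, ⟨2, by omega, rfl⟩]

open Classical in
theorem sim_sound {M : NTM} {x : List Bool} {w s T n : ℕ} (hw : 0 < w) (v : ℕ → ℕ → ℕ)
    (h : ∀ t < T + 1, Good n (s + 1) (fun t j a e j' b => decide (okP M x w s T t j a e j' b)) v t) :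
    M.Accepts x (s * w) T := by
  simp only [Good, decide_eq_true_eq, okP, if_true, one_ne_zero, if_false] at h
  have h0 := fun t ht j hj => ((h t ht j hj).2 0 (by omega)).1
  have ha : ∃ u, M.acc (vq M (v u 0)) = true := ⟨T, (h0 T (by omega) 0 (by omega)).2.2.2.2.2 rfl⟩
  have hu : Nat.find ha ≤ T := Nat.find_min' ha ((h0 T (by omega) 0 (by omega)).2.2.2.2.2 rfl)
  refine ⟨Nat.find ha, fun t => ⟨vq M (v t 0), vp (v t 0),
    fun i => decide (i / w ≤ s) && vB (v t (i / w)) (i % w), vh (v t 0)⟩, hu, ?_, fun t ht => ?_,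
    Nat.find_spec ha, fun t ht => (h0 t (by omega) 0 (by omega)).2.2.2.1⟩
  · obtain ⟨h1, h2, h3, -⟩ := (h0 0 (by omega) 0 (by omega)).2.2.2.2.1 rfl
    simp only [h1, h2, h3, NCfg.mk.injEq, true_and, and_true]
    funext i
    by_cases e : i / w ≤ s
    · simp [((h0 0 (by omega) _ (Nat.lt_succ_of_le e)).2.2.2.2.1 rfl).2.2.2 _ (Nat.mod_lt i hw)]
    · simp [e]
  have h1 : ∀ j ≤ s, _ := fun j hj => (((h (t + 1) (by omega) j (by omega)).2 j (by omega)).2
    (by omega) rfl).resolve_left (by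
      rw [Nat.add_sub_cancel, (h0 t (by omega) j (by omega)).1]
      exact Nat.find_min ha ht)
  have h2 : vh (v t 0) / w ≤ s :=
    (Nat.div_lt_of_lt_mul (Nat.mul_comm s w ▸ (h0 t (by omega) 0 (by omega)).2.2.2.1)).le
  obtain ⟨a1, a2, a3, -⟩ := h0 t (by omega) (vh (v t 0) / w) (by omega)
  obtain ⟨b1, b2, b3, -⟩ := h0 (t + 1) (by omega) (vh (v t 0) / w) (by omega)
  obtain ⟨m, hm, m', hm', c1, c2, c3⟩ := (h1 _ h2).2 (by rw [Nat.add_sub_cancel, a3])
  rw [Nat.add_sub_cancel] at c1 c2 c3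
  rw [a1, a2, a3, b1] at c1
  refine ⟨mv m, _, mv m', by simpa [h2] using c1, by simp only [mv_apply hm, ← b2, c2, a2], ?_,
    by simp only [mv_apply hm', ← b3, c3, a3]⟩
  funext i
  by_cases e : i = vh (v t 0)
  · simp [e, h2]
  rw [Function.update_of_ne e]
  by_cases e' : i / w ≤ s
  · simpa [e'] using (h1 _ e').1 _ (Nat.mod_lt i hw) (by
      rwa [Nat.div_add_mod', Nat.add_sub_cancel, (h0 t (by omega) _ (by omega)).2.2.1])
  · simp [e']

theorem pair_lt {a b D : ℕ} (ha : a < D) (hb : b < D) : Nat.pair a b < D ^ 2 :=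
  (Nat.pair_lt_max_add_one_sq a b).trans_le (Nat.pow_le_pow_left (by omega) 2)

open Classical in
theorem sim_complete {M : NTM} {x : List Bool} {w s T D : ℕ} (hw : 0 < w)
    (hD : 2 ^ w + M.a + x.length + 2 + s * w ≤ D) (h : M.Accepts x (s * w) T) :
    ∃ v, ∀ t < T + 1, Good ((D ^ 2) ^ 2) (s + 1)
      (fun t j a e j' b => decide (okP M x w s T t j a e j' b)) v t := by
  obtain ⟨u, c, hu, h0, hs, ha, hh⟩ := h
  obtain ⟨v, hv, v1, v2, v3, v4⟩ : ∃ v : ℕ → ℕ → ℕ, (∀ t ≤ u, ∀ j, v t j < (D ^ 2) ^ 2) ∧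
      (∀ t j, vq M (v t j) = (c t).q) ∧ (∀ t j, vp (v t j) = (c t).pos) ∧
      (∀ t j, vh (v t j) = (c t).head) ∧ ∀ t j, ∀ i < w, vB (v t j) i = (c t).tape (j * w + i) := by
    refine ⟨fun t j => Nat.pair (Nat.pair (Nat.ofBits fun i : Fin w => (c t).tape (j * w + i))
      (c t).q) (Nat.pair (c t).pos (c t).head), fun t ht j => ?_, fun t j => ?_, fun t j => ?_,
      fun t j => ?_, fun t j i hi => ?_⟩
    · have := Nat.ofBits_lt_two_pow fun i : Fin w => (c t).tape (j * w + i)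
      have := (c t).q.2
      have := hh t ht
      have : (c t).pos ≤ x.length + 1 := by
        rcases t with _ | t
        · simp [h0]
        · obtain ⟨m, b, m', -, e, -⟩ := hs t ht
          omega
      exact pair_lt (pair_lt (by omega) (by omega)) (pair_lt (by omega) (by omega))
    · simp [vq, Nat.mod_eq_of_lt]
    · simp [vp]
    · simp [vh]
    · simp [vB, Nat.testBit_ofBits_lt _ _ hi]
  refine ⟨fun t => v (min t u), fun t _ j _ => ⟨hv _ (by omega) _, fun j' _ => ?_⟩⟩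
  simp only [decide_eq_true_eq, okP, if_true, one_ne_zero, if_false, v1, v2, v3, true_and]
  refine ⟨⟨hh _ (by omega), fun e => ?_, fun e => by rwa [show min t u = u by omega]⟩,
    fun e e' => ?_⟩
  · simp +contextual [e, h0, v4]
  subst e'
  by_cases e1 : u < t
  · exact Or.inl (by rwa [show min (t - 1) u = u by omega])
  obtain ⟨t, rfl⟩ : ∃ t', t = t' + 1 := ⟨t - 1, by omega⟩
  obtain ⟨m, b, m', c1, c2, c3, c4⟩ := hs t (by omega)
  obtain ⟨m, hm, rfl⟩ := mv_surj m
  obtain ⟨m', hm', rfl⟩ := mv_surj m'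
  rw [show min (t + 1) u = t + 1 by omega, show min (t + 1 - 1) u = t by omega]
  refine Or.inr ⟨fun i hi e => by rw [v4 _ _ i hi, v4 _ _ i hi, c3, Function.update_of_ne e],
    fun e => ⟨m, hm, m', hm', ?_, by rw [c2, mv_apply hm], by rw [c4, mv_apply hm']⟩⟩
  rwa [v4 _ _ _ (Nat.mod_lt _ hw), v4 _ _ _ (Nat.mod_lt _ hw), ← e, Nat.div_add_mod', c3,
    Function.update_self]

variable {α : Type} [Obj α]

@[fun_prop] theorem ls_vB {a i : α → ℕ} (ha : LS a) (hi : LS i) : LS fun x => vB (a x) (i x) := by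
  unfold vB
  fun_prop

@[fun_prop] theorem ls_vp {a : α → ℕ} (ha : LS a) : LS fun x => vp (a x) := by
  unfold vp
  fun_prop

@[fun_prop] theorem ls_vh {a : α → ℕ} (ha : LS a) : LS fun x => vh (a x) := by
  unfold vh
  fun_prop

@[fun_prop] theorem ls_vq (M : NTM) {a : α → ℕ} (ha : LS a) : LS fun x => vq M (a x) := by
  refine LS.of_finVal ?_
  unfold vq
  fun_prop

@[fun_prop] theorem ls_log {a : α → ℕ} (ha : LS a) : LS fun x => Nat.log 2 (a x) := by
  refine (ha.natSize.sub (LS.const 1)).congr fun x => ?_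
  by_cases h : a x = 0
  · simp [h]
  · have h1 := Nat.size_le.2 (Nat.lt_pow_succ_log_self (b := 2) (by omega) (a x))
    have h2 := Nat.lt_size.2 (Nat.pow_log_le_self 2 h)
    omega

@[fun_prop] theorem ls_acc (M : NTM) {q : α → Fin M.a} (hq : LS q) : LS fun x => M.acc (q x) :=
  hq.finite_comp _

@[fun_prop] theorem ls_delta (M : NTM) {q q' : α → Fin M.a} {i : α → Option Bool} {b b' : α → Bool}
    {m m' : α → ℕ} (hq : LS q) (hi : LS i) (hb : LS b) (hq' : LS q') (hm : LS m) (hb' : LS b')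
    (hm' : LS m') : LS fun x => M.δ (q x) (i x) (b x) (q' x) (mv (m x)) (b' x) (mv (m' x)) := by
  have h : LS fun x => (q x, i x, b x, q' x, decide (m x = 0), decide (m x = 1), b' x,
    decide (m' x = 0), decide (m' x = 1)) := by fun_prop
  refine (h.finite_comp fun p => M.δ p.1 p.2.1 p.2.2.1 p.2.2.2.1 (if p.2.2.2.2.1 then .left else if
    p.2.2.2.2.2.1 then .stay else .right) p.2.2.2.2.2.2.1 (if p.2.2.2.2.2.2.2.1 then .left else if
    p.2.2.2.2.2.2.2.2 then .stay else .right)).congr fun x => ?_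
  simp [mv]

@[fun_prop] theorem ls_okP (M : NTM) {x : α → List Bool} {w s T t j a e j' b : α → ℕ} (hx : LS x)
    (hw : LS w) (hs : LS s) (hT : LS T) (ht : LS t) (hj : LS j) (ha : LS a) (he : LS e)
    (hj' : LS j') (hb : LS b) :
    LSP fun y => okP M (x y) (w y) (s y) (T y) (t y) (j y) (a y) (e y) (j' y) (b y) := by
  unfold okP inputSym
  refine .of_decide (inst := fun _ => inferInstance) ?_
  fun_prop

theorem pre_idx (n : ℕ) (x : List Bool) : (pre n x).idxOf false = n := by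
  induction n <;> simp_all [pre, List.replicate_succ]

theorem pre_drop (n : ℕ) (x : List Bool) : (pre n x).drop (n + 1) = x := by
  induction n <;> simp_all [pre, List.replicate_succ]

theorem main (M : NTM) : ∃ R : List Bool → List Bool, LS R ∧ ∀ (x : List Bool) (s t : ℕ),
    ∃ (N : ℕ) (H : SimpleGraph (Fin N)) (K : ℕ), R (pre s (pre t x)) = encode H K ∧ H.Connected ∧
      H.IsBipartite ∧ IsPlanar H ∧ PathwidthLE H (48 * s + 58) ∧
      (stc H ≤ K ↔ M.Accepts x (s * (Nat.log 2 x.length + 1)) t) := by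
  classical
  obtain ⟨R, h1, h2⟩ := csp_red (α := ℕ × ℕ × List Bool) (n := fun p => ((3 * p.2.2.length + M.a
    + 4 + p.1 * (Nat.log 2 p.2.2.length + 1)) ^ 2) ^ 2) (r := fun p => p.2.1 + 1)
    (k := fun p => p.1 + 1) (ok := fun p t j a e j' b =>
      decide (okP M p.2.2 (Nat.log 2 p.2.2.length + 1) p.1 p.2.1 t j a e j' b))
    (by fun_prop) (by fun_prop) (by fun_prop) (by fun_prop)
  refine ⟨fun y => R (y.idxOf false, (y.drop (y.idxOf false + 1)).idxOf false, (y.drop
    (y.idxOf false + 1)).drop ((y.drop (y.idxOf false + 1)).idxOf false + 1)),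
    LS.comp _ _ h1 (by fun_prop), fun x s t => ?_⟩
  obtain ⟨N, H, K, a1, a2, a0, a3, a4, a5⟩ := h2 (s, t, x)
  refine ⟨N, H, K, by simpa only [pre_idx, pre_drop] using a1, a2, a0, a3, a4, a5.trans
    ⟨fun ⟨v, h⟩ => sim_sound (Nat.succ_pos _) v h, sim_complete (Nat.succ_pos _) ?_⟩⟩
  have := Nat.pow_log_le_add_one 2 x.length
  simp only [pow_succ]
  omega

end Pool.Agent.Work.MP_1e0b64_lc
end
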